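import Pool.Agent.Run7.h369.D3.Uni
import Pool.Agent.Run7.h831.D3act

/-! # Counting -/

set_option autoImplicit false
set_option linter.all false

namespace Pool.Agent.Run7.h369.D3

open Finset

/-- the condition on 4-cycles implies the condition on the cross ratios -/
theorem cr_of_cyc {K : Type} [Fintype K] [DecidableEq K] (h6 : 3 ≤ Fintype.card K) (e : K → ℤ)
    (h : Cyc e) : ∀ i k, i ≠ k → ∃ l l', l ≠ i ∧ l ≠ k ∧ l' ≠ i ∧ l' ≠ k ∧
      ¬ IsSquare ((e i - e l) * (e i - e l') * ((e k - e l) * (e k - e l'))) := by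
  intro i k hik
  have hex : ∃ j, j ≠ i ∧ j ∉ ({k} : Finset K) := by
    by_contra hno
    push Not at hno
    have h1 : Fintype.card K ≤ ({i, k} : Finset K).card := by
      rw [← Finset.card_univ]
      refine Finset.card_le_card fun j _ => ?_
      rw [Finset.mem_insert]
      by_cases hj : j = i
      · exact Or.inl hj
      · exact Or.inr (hno j hj)
    have h2 : ({i, k} : Finset K).card ≤ 2 := Finset.card_le_two
    omega
  obtain ⟨a, b, c, d, ha, hb, hc, hd, hab, hac, had, hbc, hbd, hcd, hns⟩ := h i {k}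
    (by rw [Finset.mem_singleton]; exact hik) ⟨k, Finset.mem_singleton_self k⟩ hex
  unfold pf at hns
  simp only [Finset.mem_singleton] at hns
  by_cases h1 : a = k
  · subst h1
    refine ⟨b, d, hb, hab.symm, hd, had.symm, fun hsq => hns ?_⟩
    simp only [if_true, hab.symm, had.symm, hac.symm, if_false, true_iff, false_iff, iff_true,
      iff_false, not_true_eq_false, not_false_eq_true, iff_self] at hns ⊢
    obtain ⟨r, hr⟩ := hsq
    refine ⟨r * (e a - e i), ?_⟩
    linear_combination ((e a - e i) ^ 2) * hr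
  by_cases h2 : b = k
  · subst h2
    refine ⟨a, c, ha, hab, hc, hbc.symm, fun hsq => hns ?_⟩
    simp only [if_true, hab, hbc.symm, hbd.symm, if_false, true_iff, false_iff, iff_true,
      iff_false, not_true_eq_false, not_false_eq_true, iff_self] at hns ⊢
    obtain ⟨r, hr⟩ := hsq
    refine ⟨r * (e b - e i), ?_⟩
    linear_combination ((e b - e i) ^ 2) * hr
  by_cases h3 : c = k
  · subst h3
    refine ⟨b, d, hb, hbc, hd, hcd.symm, fun hsq => hns ?_⟩
    simp only [if_true, hac, hbc, hcd.symm, if_false, true_iff, false_iff, iff_true,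
      iff_false, not_true_eq_false, not_false_eq_true, iff_self] at hns ⊢
    obtain ⟨r, hr⟩ := hsq
    refine ⟨r * (e c - e i), ?_⟩
    linear_combination ((e c - e i) ^ 2) * hr
  by_cases h4 : d = k
  · subst h4
    refine ⟨a, c, ha, had, hc, hcd, fun hsq => hns ?_⟩
    simp only [if_true, had, hbd, hcd, if_false, true_iff, false_iff, iff_true,
      iff_false, not_true_eq_false, not_false_eq_true, iff_self] at hns ⊢
    obtain ⟨r, hr⟩ := hsq
    refine ⟨r * (e d - e i), ?_⟩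
    linear_combination ((e d - e i) ^ 2) * hr
  · exfalso
    apply hns
    simp only [h1, h2, h3, h4, if_false, iff_self, if_true, one_mul]
    exact ⟨1, rfl⟩

/-- a bound for the bad primes -/
theorem ex_z0 {K : Type} [Fintype K] [DecidableEq K] (e : K → ℤ) (he : Function.Injective e) :
    ∃ z0 : ℕ, GoodZ e z0 := by
  refine ⟨2 + ∑ i, ∑ j, (e i - e j).natAbs, fun p hp hpz => ⟨fun h => ?_, fun i j hij h => ?_⟩⟩
  · have h1 := Int.le_of_dvd (by norm_num) h
    omega
  · have h1 : (e i - e j).natAbs ≤ ∑ i, ∑ j, (e i - e j).natAbs :=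
      (Finset.single_le_sum (f := fun j => (e i - e j).natAbs) (fun _ _ => Nat.zero_le _)
        (Finset.mem_univ j)).trans
      (Finset.single_le_sum (f := fun i => ∑ j, (e i - e j).natAbs) (fun _ _ => Nat.zero_le _)
        (Finset.mem_univ i))
    have h2 : p ∣ (e i - e j).natAbs := Int.natCast_dvd.1 h
    have h3 : 0 < (e i - e j).natAbs := Int.natAbs_pos.2 (sub_ne_zero.2 fun h => hij (he h))
    have h4 := Nat.le_of_dvd h3 h2
    omega

/-- squarefree integers without large prime factor -/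
theorem few (z0 : ℕ) : ∃ δ C : ℝ, 0 < δ ∧ 0 ≤ C ∧ ∀ X : ℕ, 2 ≤ X →
    ({d : ℤ | d.natAbs ≤ X ∧ (Squarefree d ∧
      ¬ ∃ p : ℕ, p.Prime ∧ z0 < p ∧ (p : ℤ) ∣ d)}.ncard : ℝ) ≤
      C * X * (Real.log X) ^ (-δ) := by
  set B := primorial z0 with hB
  refine ⟨1, 2 * B + 1, one_pos, by positivity, fun X hX => ?_⟩
  have hsub : {d : ℤ | d.natAbs ≤ X ∧ (Squarefree d ∧
      ¬ ∃ p : ℕ, p.Prime ∧ z0 < p ∧ (p : ℤ) ∣ d)} ⊆ (Finset.Icc (-(B : ℤ)) B : Finset ℤ) := by
    rintro d ⟨-, hd, hno⟩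
    have h1 : Squarefree d.natAbs := Int.squarefree_natAbs.2 hd
    have h2 : d.natAbs ∣ B := by
      rw [← Nat.prod_primeFactors_of_squarefree h1, hB, primorial]
      refine Finset.prod_dvd_prod_of_subset _ _ _ fun p hp => ?_
      have hp' := Nat.prime_of_mem_primeFactors hp
      rw [Finset.mem_filter, Finset.mem_range]
      refine ⟨?_, hp'⟩
      by_contra hlt
      exact hno ⟨p, hp', by omega, Int.natCast_dvd.2 (Nat.dvd_of_mem_primeFactors hp)⟩
    have h3 := Nat.le_of_dvd (primorial_pos z0) h2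
    rw [Finset.coe_Icc, Set.mem_Icc]
    omega
  have h1 := Set.ncard_le_ncard hsub (Finset.finite_toSet _)
  rw [Set.ncard_coe_finset, Int.card_Icc] at h1
  have h2 : {d : ℤ | d.natAbs ≤ X ∧ (Squarefree d ∧
      ¬ ∃ p : ℕ, p.Prime ∧ z0 < p ∧ (p : ℤ) ∣ d)}.ncard ≤ 2 * B + 1 := by omega
  have h3 : ({d : ℤ | d.natAbs ≤ X ∧ (Squarefree d ∧
      ¬ ∃ p : ℕ, p.Prime ∧ z0 < p ∧ (p : ℤ) ∣ d)}.ncard : ℝ) ≤ 2 * B + 1 := by exact_mod_cast h2
  refine h3.trans ?_
  have hX' : (2 : ℝ) ≤ X := by exact_mod_cast hX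
  have hL0 : 0 < Real.log X := Real.log_pos (by linarith)
  have hL1 : Real.log X ≤ X := by
    have := Real.log_le_sub_one_of_pos (show (0 : ℝ) < X by linarith)
    linarith
  rw [Real.rpow_neg_one, mul_assoc]
  have h4 : 1 ≤ (X : ℝ) * (Real.log X)⁻¹ := by
    rw [← div_eq_mul_inv, le_div_iff₀ hL0, one_mul]
    exact hL1
  have h5 : (0 : ℝ) ≤ 2 * B + 1 := by positivity
  nlinarith

/-- the counting theorem for one branch point -/
theorem cnt_i {K : Type} [Fintype K] [DecidableEq K] (e : K → ℤ) (he : Function.Injective e)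
    (h4 : 4 ≤ Fintype.card K) (hcyc : Cyc e) (i j0 : K) (hj0 : j0 ≠ i) (z0 : ℕ) :
    ∃ δ C : ℝ, 0 < δ ∧ 0 ≤ C ∧ ∀ X : ℕ, 2 ≤ X →
    ({d : ℤ | d.natAbs ≤ X ∧ (Squarefree d ∧ SelA (aa i j0) (ca e i j0) z0 d)}.ncard : ℝ) ≤
      C * X * (Real.log X) ^ (-δ) := by
  classical
  obtain ⟨δ, hδ, C, hC⟩ := Run7.h831.D3.act (Typ i j0) (Rel i) (aa i j0) (ca e i j0)
    (fun L w => cc_ne e he i L.1 w.1 w.2.1)
    (fun L L' h => sep i j0 h4 hj0 L L' h)
    (fun L L' h => cyc_ns e he hcyc i j0 hj0 L L' h) z0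
  refine ⟨δ, max C 0, hδ, le_max_right _ _, fun X hX => (hC X hX).trans ?_⟩
  have hX' : (2 : ℝ) ≤ X := by exact_mod_cast hX
  have hL0 : 0 < Real.log X := Real.log_pos (by linarith)
  apply mul_le_mul_of_nonneg_right _ (Real.rpow_pos_of_pos hL0 _).le
  exact mul_le_mul_of_nonneg_right (le_max_left _ _) (by linarith)

end Pool.Agent.Run7.h369.D3
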