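import Pool.Agent.Run7.h369.D3.Typs

/-! # The integers `0, …, 5` satisfy the condition -/

set_option autoImplicit false
set_option linter.all false

namespace Pool.Agent.Run7.h369.D3

open Finset

/-- a certificate that `n` is no square -/
def nsq (n : ℤ) : Bool :=
  decide (n < 0) || ((List.range 5).all fun r => decide (((r * r : ℕ) : ℤ) % 5 ≠ n % 5)) ||
    ((List.range 7).all fun r => decide (((r * r : ℕ) : ℤ) % 7 ≠ n % 7))

theorem not_sq_mod (q : ℕ) (hq : 0 < q) (n : ℤ)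
    (h : ((List.range q).all fun r => decide (((r * r : ℕ) : ℤ) % q ≠ n % q)) = true) :
    ¬ IsSquare n := by
  rintro ⟨t, rfl⟩
  rw [List.all_eq_true] at h
  have hq' : (q : ℤ) ≠ 0 := by exact_mod_cast hq.ne'
  have h0 : 0 ≤ t % q := Int.emod_nonneg _ hq'
  have h1 : t % q < q := Int.emod_lt_of_pos _ (by exact_mod_cast hq)
  obtain ⟨r, hr⟩ := Int.eq_ofNat_of_zero_le h0
  have h2 : r < q := by
    rw [hr] at h1
    exact_mod_cast h1
  have h3 := h r (List.mem_range.2 h2)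
  rw [decide_eq_true_eq] at h3
  apply h3
  push_cast
  have h4 : (r : ℤ) = t % q := hr.symm
  rw [h4, ← Int.mul_emod]

theorem not_sq_of_nsq (n : ℤ) (h : nsq n = true) : ¬ IsSquare n := by
  unfold nsq at h
  rw [Bool.or_eq_true, Bool.or_eq_true] at h
  rcases h with (h | h) | h
  · rintro ⟨t, rfl⟩
    rw [decide_eq_true_eq] at h
    exact absurd h (not_lt.2 (mul_self_nonneg t))
  · exact not_sq_mod 5 (by norm_num) n (by exact_mod_cast h)
  · exact not_sq_mod 7 (by norm_num) n (by exact_mod_cast h)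

/-- the factor of a pair, with a Boolean function -/
def pfb (i : ℕ) (D : ℕ → Bool) (u v : ℕ) : ℤ :=
  (if D u then -1 else 1) * (if D u = D v then 1 else
    ((u : ℤ) - v) * (((u : ℤ) - i) * ((v : ℤ) - i)))

/-- the table of the 4-cycles -/
def tabl : List (List ℕ) := [
  [0, 0, 675, 0, 668, 0, 668, 0, 668, 0, 668, 0, 677, 0, 677, 0, 677, 0, 677, 0, 668, 0, 668,
   0, 668, 0, 668, 0, 675, 0, 669, 0, 669, 0, 675, 0, 668, 0, 668, 0, 668, 0, 668, 0, 677, 0,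
   677, 0, 677, 0, 677, 0, 668, 0, 668, 0, 668, 0, 668, 0, 675, 0, 0, 0],
  [0, 163, 0, 0, 163, 171, 0, 0, 156, 156, 0, 0, 156, 156, 0, 0, 156, 156, 0, 0, 156, 156, 0,
   0, 157, 157, 0, 0, 157, 157, 0, 0, 157, 157, 0, 0, 157, 157, 0, 0, 156, 156, 0, 0, 156,
   156, 0, 0, 156, 156, 0, 0, 156, 156, 0, 0, 171, 163, 0, 0, 163, 0, 0, 0],
  [0, 92, 99, 92, 0, 0, 0, 0, 93, 92, 93, 92, 0, 0, 0, 0, 92, 93, 92, 93, 0, 0, 0, 0, 92, 93,
   92, 93, 0, 0, 0, 0, 93, 92, 93, 92, 0, 0, 0, 0, 93, 92, 93, 92, 0, 0, 0, 0, 92, 93, 92, 93,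
   0, 0, 0, 0, 92, 99, 92, 0, 0, 0, 0, 0],
  [0, 84, 84, 101, 85, 84, 84, 101, 0, 0, 0, 0, 0, 0, 0, 0, 98, 84, 84, 101, 85, 84, 84, 101,
   0, 0, 0, 0, 0, 0, 0, 0, 101, 84, 84, 85, 101, 84, 84, 98, 0, 0, 0, 0, 0, 0, 0, 0, 101, 84,
   84, 85, 101, 84, 84, 0, 0, 0, 0, 0, 0, 0, 0, 0],
  [0, 85, 83, 83, 83, 83, 85, 90, 90, 85, 83, 83, 83, 83, 85, 106, 0, 0, 0, 0, 0, 0, 0, 0, 0,
   0, 0, 0, 0, 0, 0, 0, 106, 85, 83, 83, 83, 83, 85, 90, 90, 85, 83, 83, 83, 83, 85, 0, 0, 0,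
   0, 0, 0, 0, 0, 0, 0, 0, 0, 0, 0, 0, 0, 0],
  [0, 83, 83, 83, 83, 83, 92, 92, 92, 92, 83, 83, 83, 83, 675, 98, 98, 675, 83, 83, 83, 83,
   92, 92, 92, 92, 83, 83, 83, 83, 83, 0, 0, 0, 0, 0, 0, 0, 0, 0, 0, 0, 0, 0, 0, 0, 0, 0, 0,
   0, 0, 0, 0, 0, 0, 0, 0, 0, 0, 0, 0, 0, 0, 0]]


/-- the check of one line -/
def chk (i m : ℕ) : Bool :=
  let t := (tabl.getD i []).getD m 0
  let a := t / 512 % 8
  let b := t / 64 % 8
  let c := t / 8 % 8
  let d := t % 8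
  decide (a < 6) && decide (b < 6) && decide (c < 6) && decide (d < 6) &&
  decide (a ≠ i) && decide (b ≠ i) && decide (c ≠ i) && decide (d ≠ i) &&
  decide (a ≠ b) && decide (a ≠ c) && decide (a ≠ d) && decide (b ≠ c) && decide (b ≠ d) &&
  decide (c ≠ d) &&
  nsq (pfb i m.testBit a b * pfb i m.testBit b c * (pfb i m.testBit c d * pfb i m.testBit d a))

/-- the masks which have to be checked -/
def need (i m : ℕ) : Bool :=
  !m.testBit i && ((List.range 6).any fun j => m.testBit j) &&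
    ((List.range 6).any fun j => decide (j ≠ i) && !m.testBit j)

theorem chk_all : ((List.range 6).all fun i => (List.range 64).all fun m => !need i m || chk i m) =
    true := by decide +kernel

/-- the mask of a list of Booleans -/
def mk6 (b0 b1 b2 b3 b4 b5 : Bool) : ℕ :=
  b0.toNat + 2 * b1.toNat + 4 * b2.toNat + 8 * b3.toNat + 16 * b4.toNat + 32 * b5.toNat

theorem mk6_spec : ∀ b0 b1 b2 b3 b4 b5 : Bool, mk6 b0 b1 b2 b3 b4 b5 < 64 ∧
    (mk6 b0 b1 b2 b3 b4 b5).testBit 0 = b0 ∧ (mk6 b0 b1 b2 b3 b4 b5).testBit 1 = b1 ∧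
    (mk6 b0 b1 b2 b3 b4 b5).testBit 2 = b2 ∧ (mk6 b0 b1 b2 b3 b4 b5).testBit 3 = b3 ∧
    (mk6 b0 b1 b2 b3 b4 b5).testBit 4 = b4 ∧ (mk6 b0 b1 b2 b3 b4 b5).testBit 5 = b5 := by
  decide +kernel

theorem ex_mask (D : Finset (Fin 6)) : ∃ m < 64, ∀ j : Fin 6, m.testBit j = decide (j ∈ D) := by
  obtain ⟨h, h0, h1, h2, h3, h4, h5⟩ := mk6_spec (decide ((0 : Fin 6) ∈ D))
    (decide ((1 : Fin 6) ∈ D)) (decide ((2 : Fin 6) ∈ D)) (decide ((3 : Fin 6) ∈ D))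
    (decide ((4 : Fin 6) ∈ D)) (decide ((5 : Fin 6) ∈ D))
  refine ⟨_, h, fun j => ?_⟩
  fin_cases j
  · exact h0
  · exact h1
  · exact h2
  · exact h3
  · exact h4
  · exact h5

/-- **the example** -/
theorem cyc_ex : Cyc (fun i : Fin 6 => ((i : ℕ) : ℤ)) := by
  intro i D hi hD hex
  obtain ⟨m, hm, hb⟩ := ex_mask D
  have h1 := chk_all
  rw [List.all_eq_true] at h1
  have h2 := h1 i.1 (List.mem_range.2 i.2)
  rw [List.all_eq_true] at h2
  have h3 := h2 m (List.mem_range.2 hm)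
  have hneed : need i.1 m = true := by
    unfold need
    rw [Bool.and_eq_true, Bool.and_eq_true, List.any_eq_true, List.any_eq_true]
    refine ⟨⟨?_, ?_⟩, ?_⟩
    · rw [hb i, decide_eq_false hi]
      rfl
    · obtain ⟨j, hj⟩ := hD
      exact ⟨j.1, List.mem_range.2 j.2, by rw [hb j, decide_eq_true hj]⟩
    · obtain ⟨j, hji, hj⟩ := hex
      refine ⟨j.1, List.mem_range.2 j.2, ?_⟩
      rw [hb j, decide_eq_false hj, Bool.and_eq_true, decide_eq_true_eq]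
      exact ⟨fun h => hji (Fin.ext h), rfl⟩
  rw [hneed] at h3
  simp only [Bool.not_true, Bool.false_or] at h3
  unfold chk at h3
  simp only [Bool.and_eq_true, decide_eq_true_eq] at h3
  set t := (tabl.getD i.1 []).getD m 0 with ht
  obtain ⟨⟨⟨⟨⟨⟨⟨⟨⟨⟨⟨⟨⟨⟨ha, hb'⟩, hc⟩, hd⟩, hai⟩, hbi⟩, hci⟩, hdi⟩, hab⟩, hac⟩, had⟩, hbc⟩, hbd⟩, hcd⟩,
    hns⟩ := h3
  refine ⟨⟨_, ha⟩, ⟨_, hb'⟩, ⟨_, hc⟩, ⟨_, hd⟩, fun h => hai (congrArg Fin.val h),
    fun h => hbi (congrArg Fin.val h), fun h => hci (congrArg Fin.val h),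
    fun h => hdi (congrArg Fin.val h), fun h => hab (congrArg Fin.val h),
    fun h => hac (congrArg Fin.val h), fun h => had (congrArg Fin.val h),
    fun h => hbc (congrArg Fin.val h), fun h => hbd (congrArg Fin.val h),
    fun h => hcd (congrArg Fin.val h), ?_⟩
  have key : ∀ u v : Fin 6, pf (fun i : Fin 6 => ((i : ℕ) : ℤ)) i D u v =
      pfb i.1 m.testBit u.1 v.1 := by
    intro u v
    unfold pf pfb
    rw [hb u, hb v]
    by_cases h1 : u ∈ D <;> by_cases h2 : v ∈ D <;> simp [h1, h2]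
  rw [key, key, key, key]
  exact not_sq_of_nsq _ hns

end Pool.Agent.Run7.h369.D3
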