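import Pool.Agent.Run7.h369.D3.Kum
import Pool.Agent.Y768.PC.UNQF
import Pool.Agent.Y780.PC.Taux

/-! # An automorphism which stabilises a place -/

set_option autoImplicit false
set_option linter.all false

namespace Pool.Agent.Run7.h369.D3

open Finset Pool.Agent.Y157.PS Pool.Agent.Y157.PC

/-- there is a place above `p` -/
theorem ex_V {κ : Type} [Field κ] [CharZero κ] (p : ℕ) (hp : p.Prime) :
    ∃ V : ValuationSubring κ, (p : κ) ∈ V.nonunits := by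
  set A : Subring κ := (Int.castRingHom κ).range with hA
  have hpA : (p : κ) ∈ A := ⟨(p : ℤ), by simp⟩
  obtain ⟨B, -, hB⟩ := Ideal.image_subset_nonunits_valuationSubring
    (Ideal.span {(⟨(p : κ), hpA⟩ : A)}) (by
      rw [Ne, Ideal.span_singleton_eq_top]
      intro h
      obtain ⟨⟨b, m, hm⟩, hb⟩ := h.exists_right_inv
      have h1 : (p : κ) * b = 1 := congrArg Subtype.val hb
      rw [← hm] at h1
      have h2 : ((p : ℤ) : κ) * ((m : ℤ) : κ) = ((1 : ℤ) : κ) := by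
        push_cast
        exact h1
      have h3 : (p : ℤ) * m = 1 := by exact_mod_cast h2
      exact (Nat.prime_iff_prime_int.mp hp).not_unit ⟨⟨(p : ℤ), m, h3, by rw [mul_comm]; exact h3⟩, rfl⟩)
  exact ⟨B, hB ⟨_, Ideal.subset_span rfl, rfl⟩⟩

section

variable {K : Type} [Fintype K] [DecidableEq K] (e : K → ℤ) (he : Function.Injective e)
  (hev : Even (Fintype.card K)) (h4 : 4 ≤ Fintype.card K) (d : ℤ) (hd : d ≠ 0)
  {F Ω : Type} [Field F] [Field Ω] [Algebra ℚ F] [Algebra F Ω] [Algebra ℚ Ω]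
  [IsScalarTower ℚ F Ω] [IsAlgClosed Ω] [Algebra.IsAlgebraic F Ω] (x y : F)
  (hx : Transcendental ℚ x)
  (hxy : algebraMap ℚ F (d : ℚ) * y ^ 2 = ∏ i, (x - algebraMap ℚ F (e i : ℚ)))
  (hF : IntermediateField.adjoin ℚ {x, y} = (⊤ : IntermediateField ℚ F))

include he hev h4 hd hx hxy hF in
/-- there is an automorphism which stabilises a given place and acts as `σ` on the constants -/
theorem twist_stable (i : K) (N : IntermediateField F Ω) (hN : Normal F N)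
    (hκN : ∀ c : algebraicClosure ℚ Ω, (c : Ω) ∈ N)
    (σ : algebraicClosure ℚ Ω ≃ₐ[ℚ] algebraicClosure ℚ Ω) (s : N ≃ₐ[F] N)
    (hs : ∀ (c : algebraicClosure ℚ Ω) (z : N), (z : Ω) = (c : Ω) → (s z : Ω) = (σ c : Ω))
    (W0 : ValuationSubring Ω) (hWq : ∀ c : ℚ, algebraMap ℚ Ω c ∈ W0)
    (hWπ : algebraMap F Ω x - algebraMap ℚ Ω (e i : ℚ) ∈ W0.nonunits) :
    ∃ t : Ω ≃ₐ[F] Ω, (∀ z, t z ∈ W0 ↔ z ∈ W0) ∧ ∀ c : algebraicClosure ℚ Ω,
      t (c : Ω) = (σ c : Ω) := by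
  have : IsAlgClosure F Ω := ⟨inferInstance, inferInstance⟩
  have : Normal F Ω := IsAlgClosure.normal F Ω
  let t0 : Ω ≃ₐ[F] Ω := AlgEquiv.liftNormal s Ω
  have ht0 : ∀ z : N, t0 (z : Ω) = (s z : Ω) := fun z => AlgEquiv.liftNormal_commutes s Ω z
  have ht0κ : ∀ c : algebraicClosure ℚ Ω, t0 (c : Ω) = (σ c : Ω) := by
    intro c
    have h1 := ht0 ⟨(c : Ω), hκN c⟩
    rw [hs c ⟨(c : Ω), hκN c⟩ rfl] at h1
    exact h1
  have hQ : ∀ (t : Ω ≃ₐ[F] Ω) (c : ℚ), t (algebraMap ℚ Ω c) = algebraMap ℚ Ω c := by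
    intro t c
    rw [eq_ratCast (algebraMap ℚ Ω) c, map_ratCast]
  have hX : ∀ t : Ω ≃ₐ[F] Ω, t (algebraMap F Ω x - algebraMap ℚ Ω (e i : ℚ)) =
      algebraMap F Ω x - algebraMap ℚ Ω (e i : ℚ) := by
    intro t
    rw [map_sub, hQ, t.commutes]
  let W2 : ValuationSubring Ω := W0.comap (t0 : Ω →+* Ω)
  have hW2 : ∀ z, z ∈ W2 ↔ t0 z ∈ W0 := fun z => Iff.rfl
  have hUN := Pool.Agent.Y768.PC.unqf K e he hev h4 d hd F Ω x y hx hxy hF i W2 W0
    (fun c => by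
      rw [hW2, hQ]
      exact hWq c)
    (by
      refine (Pool.Agent.Y780.PC.non_comap _ _ _).2 ?_
      change t0 (algebraMap F Ω x - algebraMap ℚ Ω (e i : ℚ)) ∈ W0.nonunits
      rw [hX t0]
      exact hWπ)
    hWq hWπ
  set G := geomF ℚ F Ω with hG
  have : Algebra.IsAlgebraic G Ω := Algebra.IsAlgebraic.tower_top (K := F) G
  have : IsAlgClosure G Ω := ⟨inferInstance, inferInstance⟩
  have : Normal G Ω := IsAlgClosure.normal G Ω
  obtain ⟨g, hg⟩ := Pool.Agent.Y536.PS.conj G Ω W0 W2 (by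
    ext z
    rw [ValuationSubring.mem_comap, ValuationSubring.mem_comap]
    exact (hUN z z.2).symm)
  let g' : Ω ≃ₐ[F] Ω := g.symm.restrictScalars F
  let t1 : Ω ≃ₐ[F] Ω := g'.trans t0
  have ht1 : ∀ z, t1 z = t0 (g.symm z) := fun z => rfl
  refine ⟨t1, ?_, ?_⟩
  · intro z
    rw [ht1, ← hW2, hg, AlgEquiv.apply_symm_apply]
  · intro c
    rw [ht1]
    have hcG : (c : Ω) ∈ G := IntermediateField.subset_adjoin F _ c.2
    have h1 : g.symm (c : Ω) = c := g.symm.commutes ⟨(c : Ω), hcG⟩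
    rw [h1, ht0κ]

end

end Pool.Agent.Run7.h369.D3
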