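import Pool.Agent.Run7.h369.D3.Stm2
import Pool.Agent.Y157.PC.All

/-! # The square roots of the functions `f_w` are in the covering field -/

set_option autoImplicit false
set_option linter.all false

open Polynomial FF

namespace Pool.Agent.Run7.h369.D3

open Finset Pool.Agent.Y157.PS Pool.Agent.Y574.PS

section places

variable {κ R M : Type} [Field κ] [CharZero κ] [Field R] [Field M] [CharZero M] [Algebra κ R]
  [Algebra R M] [Algebra κ M] [IsScalarTower κ R M] {x : R} {B : Finset κ} {Y : M}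
  {K : Type} [Fintype K] [DecidableEq K] {e : K → ℤ} (he : Function.Injective e) {d : ℤ}
  (hd : d ≠ 0) {i : K} (hx : ∀ n : ℤ, algebraMap R M x ≠ (n : M)) {z : K → M}
  (hz : ZSys e d i (algebraMap R M x) z) (hB : ∀ j, ((e j : ℤ) : κ) ∈ B)

theorem ord_int (W : Place κ M) {n : ℤ} (hn : n ≠ 0) : W.ord (n : M) = 0 := by
  have h1 : ((n : ℤ) : M) = algebraMap κ M (n : κ) := (map_intCast _ _).symm
  rw [h1, W.ord_const (by exact_mod_cast hn)]

include he hd hx hz in
/-- the orders of the `z j` -/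
theorem two_ord_z (W : Place κ M) {j : K} (hj : j ≠ i) : 2 * W.ord (z j) +
    W.ord (algebraMap R M x - algebraMap κ M ((e i : ℤ) : κ)) =
    W.ord (algebraMap R M x - algebraMap κ M ((e j : ℤ) : κ)) := by
  rw [map_intCast, map_intCast]
  have hG : Gi e i ≠ 0 := Gi_ne e he i
  have h0 := z_ne hx hz hj
  have hxi : algebraMap R M x - (e i : M) ≠ 0 := sub_ne_zero.2 (hx _)
  have hij : e i - e j ≠ 0 := sub_ne_zero.2 (he.ne hj.symm)
  have h1 := hz j hj
  have hd' : (d : M) ≠ 0 := by exact_mod_cast hd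
  have hG' : (Gi e i : M) ≠ 0 := by exact_mod_cast hG
  have hij' : ((e i : M) - (e j : M)) ≠ 0 := sub_e_ne (M := M) he (Ne.symm hj)
  have e1 : ((e i : M) - (e j : M)) = ((e i - e j : ℤ) : M) := by push_cast; ring
  rw [← h1, W.ord_mul (mul_ne_zero (mul_ne_zero hd' hG') (pow_ne_zero 2 h0))
    (mul_ne_zero hxi hij'), W.ord_mul (mul_ne_zero hd' hG') (pow_ne_zero 2 h0),
    W.ord_mul hd' hG', W.ord_mul hxi hij', ord_int W hd, ord_int W hG, W.ord_pow, e1,
    ord_int W hij]
  push_cast
  ring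

include he hd hx hz hB in
theorem ord_z_cases (hC : Cov 2 κ R M x B Y) (W : Place κ M) :
    (∀ j, j ≠ i → W.ord (z j) = -1) ∨ ∀ j, j ≠ i → 0 ≤ W.ord (z j) := by
  have hinj : ∀ a b : K, a ≠ b → ((e a : ℤ) : κ) ≠ ((e b : ℤ) : κ) := fun a b hab h =>
    hab (he (by exact_mod_cast h))
  rcases hC.loc' W with ⟨a, ha, h1, -⟩ | ⟨a, ha, h1⟩ | h1
  · have h1' : W.ord (algebraMap R M x - algebraMap κ M a) = 2 := by exact_mod_cast h1
    by_cases hai : a = ((e i : ℤ) : κ)
    · left
      intro j hj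
      have h2 := two_ord_z he hd hx hz W hj
      rw [← hai, h1', ord_sub_const (by rw [h1']; norm_num) (fun h => hinj _ _ hj
        (by rw [← h, hai]))] at h2
      omega
    · right
      intro j hj
      have h2 := two_ord_z he hd hx hz W hj
      have h3 : W.ord (algebraMap R M x - algebraMap κ M ((e i : ℤ) : κ)) = 0 :=
        ord_sub_const (by rw [h1']; norm_num) hai
      by_cases haj : a = ((e j : ℤ) : κ)
      · rw [h3, ← haj, h1'] at h2
        omega
      · rw [h3, ord_sub_const (by rw [h1']; norm_num) haj] at h2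
        omega
  · right
    intro j hj
    have h2 := two_ord_z he hd hx hz W hj
    rw [ord_sub_const (a := a) (by rw [h1]; norm_num) (fun h => ha (by rw [h]; exact hB i)),
      ord_sub_const (a := a) (by rw [h1]; norm_num) (fun h => ha (by rw [h]; exact hB j))] at h2
    omega
  · right
    intro j hj
    have h2 := two_ord_z he hd hx hz W hj
    rw [ord_pole h1, ord_pole h1] at h2
    omega

include he hd hx hz hB in
/-- the parity of the orders of the differences -/
theorem ord_diff_parity (hC : Cov 2 κ R M x B Y) (W : Place κ M) :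
    ∃ ε : ℤ, ∀ j k, j ≠ i → k ≠ i → j ≠ k → ∃ m : ℤ, W.ord (z j - z k) = ε + 2 * m := by
  have hsum : ∀ j k, j ≠ i → k ≠ i → j ≠ k → W.ord (z j - z k) + W.ord (z j + z k) = 0 := by
    intro j k hj hk hjk
    have h1 := z_diff he hd hx hz hj hk
    have h2 := z_sub_ne he hd hx hz hj hk hjk
    have h3 := z_add_ne he hd hx hz hj hk hjk
    have hE : d * Gi e i * ((e i - e j) * (e i - e k)) ≠ 0 :=
      mul_ne_zero (mul_ne_zero hd (Gi_ne e he i))
        (mul_ne_zero (sub_ne_zero.2 (he.ne hj.symm)) (sub_ne_zero.2 (he.ne hk.symm)))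
    have e1 : (d : M) * (Gi e i : M) * (((e i : M) - (e j : M)) * ((e i : M) - (e k : M))) =
        ((d * Gi e i * ((e i - e j) * (e i - e k)) : ℤ) : M) := by push_cast; ring
    have e2 : ((e j : M) - (e k : M)) = ((e j - e k : ℤ) : M) := by push_cast; ring
    have h4 := congrArg W.ord h1
    rw [e1, e2, W.ord_mul (mul_ne_zero h2 h3) (by exact_mod_cast hE), W.ord_mul h2 h3,
      ord_int W hE, ord_int W (sub_ne_zero.2 (he.ne hjk))] at h4
    omega
  have hmin : ∀ j k, j ≠ i → k ≠ i → j ≠ k →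
      min (W.ord (z j)) (W.ord (z k)) ≤ W.ord (z j - z k) ∧
      min (W.ord (z j)) (W.ord (z k)) ≤ W.ord (z j + z k) := by
    intro j k hj hk hjk
    have h0 := z_ne hx hz hj
    have h1 := z_ne hx hz hk
    have h2 := z_sub_ne he hd hx hz hj hk hjk
    have h3 := z_add_ne he hd hx hz hj hk hjk
    refine ⟨?_, W.ord_add h0 h1 h3⟩
    have h4 := W.ord_add h0 (neg_ne_zero.2 h1) (by rwa [← sub_eq_add_neg])
    rwa [W.ord_neg, ← sub_eq_add_neg] at h4
  rcases ord_z_cases he hd hx hz hB hC W with h | h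
  · refine ⟨1, fun j k hj hk hjk => ?_⟩
    have h1 := hsum j k hj hk hjk
    obtain ⟨h2, h3⟩ := hmin j k hj hk hjk
    rw [h j hj, h k hk, min_self] at h2 h3
    have h4 : min (W.ord (z j - z k)) (W.ord (z j + z k)) ≤ -1 := by
      have h5 := W.ord_add (z_sub_ne he hd hx hz hj hk hjk) (z_add_ne he hd hx hz hj hk hjk) (by
        have : z j - z k + (z j + z k) = 2 * z j := by ring
        rw [this]
        exact mul_ne_zero two_ne_zero (z_ne hx hz hj))
      have h6 : z j - z k + (z j + z k) = ((2 : ℤ) : M) * z j := by push_cast; ring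
      rw [h6, W.ord_mul (by norm_num) (z_ne hx hz hj), ord_int W (by norm_num), h j hj] at h5
      simpa using h5
    rcases min_le_iff.1 h4 with h5 | h5
    · exact ⟨-1, by omega⟩
    · exact ⟨0, by omega⟩
  · refine ⟨0, fun j k hj hk hjk => ⟨0, ?_⟩⟩
    have h1 := hsum j k hj hk hjk
    obtain ⟨h2, h3⟩ := hmin j k hj hk hjk
    have h4 : 0 ≤ min (W.ord (z j)) (W.ord (z k)) := le_min (h j hj) (h k hk)
    omega

include he hd hx hz hB in
theorem ord_ff (hC : Cov 2 κ R M x B Y) (W : Place κ M) (w : Finset (K × K)) (hw : Adm i w)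
    (hwe : Even w.card) : (2 : ℤ) ∣ W.ord (ff z w) := by
  obtain ⟨ε, hε⟩ := ord_diff_parity he hd hx hz hB hC W
  have key : ∀ s : Finset (K × K), (∀ q ∈ s, q ∈ w) →
      (∏ q ∈ s, (z q.1 - z q.2)) ≠ 0 ∧
      ∃ m : ℤ, W.ord (∏ q ∈ s, (z q.1 - z q.2)) = s.card * ε + 2 * m := by
    intro s
    induction s using Finset.induction_on with
    | empty =>
      intro _
      rw [Finset.prod_empty]
      refine ⟨one_ne_zero, 0, ?_⟩
      rw [W.ord_one]
      simp
    | insert a s ha ih =>
      intro h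
      obtain ⟨h1, m, hm⟩ := ih fun q hq => h q (Finset.mem_insert_of_mem hq)
      have h2 := hw a (h a (Finset.mem_insert_self _ _))
      obtain ⟨m', hm'⟩ := hε a.1 a.2 h2.2.1 h2.2.2 h2.1
      have h3 := z_sub_ne he hd hx hz h2.2.1 h2.2.2 h2.1
      rw [Finset.prod_insert ha, Finset.card_insert_of_notMem ha]
      refine ⟨mul_ne_zero h3 h1, m + m', ?_⟩
      rw [W.ord_mul h3 h1, hm, hm']
      push_cast
      ring
  obtain ⟨-, m, hm⟩ := key w fun q hq => hq
  obtain ⟨r, hr⟩ := hwe
  unfold ff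
  rw [hm, hr]
  exact ⟨r * ε + m, by push_cast; ring⟩

end places

section absI

variable {κ R F Ω : Type} [Field κ] [IsAlgClosed κ] [CharZero κ]
    [Field R] [Field F] [Field Ω] [Algebra κ R] [Algebra R Ω] [Algebra κ Ω]
    [IsScalarTower κ R Ω] [IsAlgClosure R Ω] [Algebra F Ω]
    {K : Type} [Fintype K] [DecidableEq K] (e : K → ℤ) (he : Function.Injective e) (d : ℤ)
    (hd : d ≠ 0)

include he hd in
theorem rootI (x' : R) (hrat : RatF κ x') (B : Finset κ) (hdvd : 2 ∣ B.card) (h3 : 3 ≤ B.card)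
    (hB : ∀ j, ((e j : ℤ) : κ) ∈ B)
    (Y0 : Ω) (hY : Y0 ^ 2 = ∏ e ∈ B, (algebraMap R Ω x' - algebraMap κ Ω e))
    (N : IntermediateField F Ω)
    (hN : ∀ z, z ∈ maxPro 2 κ (IntermediateField.adjoin R {Y0}) Ω ↔ z ∈ N)
    (x : F) (hxx : algebraMap R Ω x' = algebraMap F Ω x) (i : K) :
    (∃ z : K → N, ZSys e d i (algebraMap F N x) z) ∧
    ∀ z : K → N, ZSys e d i (algebraMap F N x) z →
      ∀ w : Finset (K × K), Adm i w → Even w.card → ∃ h : N, h ^ 2 = ff z w := by
  haveI : Fact (Nat.Prime 2) := ⟨Nat.prime_two⟩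
  haveI : CharZero Ω := charZero_of_injective_algebraMap (algebraMap κ Ω).injective
  obtain ⟨M, hM⟩ : ∃ M : IntermediateField R Ω,
      ∀ z, z ∈ M ↔ z ∈ maxPro 2 κ (IntermediateField.adjoin R {Y0}) Ω :=
    ⟨(maxPro 2 κ (IntermediateField.adjoin R {Y0}) Ω).restrictScalars R, fun z => Iff.rfl⟩
  have hYM : Y0 ∈ M := by
    rw [hM]
    exact (maxPro 2 κ (IntermediateField.adjoin R {Y0}) Ω).algebraMap_mem
      ⟨Y0, IntermediateField.mem_adjoin_simple_self _ _⟩
  have hCov : Cov 2 κ R M x' B ⟨Y0, hYM⟩ :=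
    a_cov 2 κ R Ω x' hrat B hdvd h3 Y0 hY M hM ⟨Y0, hYM⟩ rfl
  haveI : CharZero M := charZero_of_injective_algebraMap (algebraMap κ M).injective
  have hMN : ∀ z, z ∈ M ↔ z ∈ N := fun z => (hM z).trans (hN z)
  let eqv : M ≃+* N :=
    { toFun := fun w => ⟨w.1, (hMN _).1 w.2⟩
      invFun := fun w => ⟨w.1, (hMN _).2 w.2⟩
      left_inv := fun w => rfl
      right_inv := fun w => rfl
      map_mul' := fun w w' => rfl
      map_add' := fun w w' => rfl }
  have heqx : eqv (algebraMap R M x') = algebraMap F N x := Subtype.ext hxx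
  have htr : Transcendental κ (algebraMap R M x') := by
    rw [transcendental_algebraMap_iff (algebraMap R M).injective]
    exact hrat.trans
  have hxM : ∀ n : ℤ, algebraMap R M x' ≠ (n : M) := by
    intro n h
    apply htr
    have h1 : ((n : ℤ) : M) = algebraMap κ M (n : κ) := (map_intCast _ _).symm
    rw [h, h1]
    exact isAlgebraic_algebraMap _
  constructor
  · -- the `z j`
    have key : ∀ j : K, j ≠ i → ∃ z : M, (d : M) * (Gi e i : M) * z ^ 2 *
        ((algebraMap R M x' - (e i : M)) * ((e i : M) - (e j : M))) =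
        algebraMap R M x' - (e j : M) := by
      intro j hj
      obtain ⟨h, hh⟩ := root_div hCov (hB j) (hB i)
      have hc0 : ((d * Gi e i * (e i - e j) : ℤ) : κ) ≠ 0 := by
        have : d * Gi e i * (e i - e j) ≠ 0 := mul_ne_zero (mul_ne_zero hd (Gi_ne e he i))
          (sub_ne_zero.2 (he.ne hj.symm))
        exact_mod_cast this
      obtain ⟨c, hc⟩ := IsAlgClosed.exists_pow_nat_eq (((d * Gi e i * (e i - e j) : ℤ) : κ)⁻¹)
        (n := 2) (by norm_num)
      refine ⟨algebraMap κ M c * h, ?_⟩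
      rw [mul_pow, ← map_pow, hc, hh]
      simp only [map_inv₀, map_intCast]
      have hxi : algebraMap R M x' - (e i : M) ≠ 0 := sub_ne_zero.2 (hxM _)
      have hij' : ((e i : M) - (e j : M)) ≠ 0 := sub_e_ne (M := M) he (Ne.symm hj)
      have hd' : (d : M) ≠ 0 := by exact_mod_cast hd
      have hG' : (Gi e i : M) ≠ 0 := by exact_mod_cast Gi_ne e he i
      push_cast
      field_simp
    choose! z hz using key
    refine ⟨fun j => eqv (z j), ?_⟩
    have h1 : ZSys e d i (algebraMap R M x') z := fun j hj => hz j hj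
    intro j hj
    have h2 := congrArg eqv (h1 j hj)
    simp only [map_mul, map_sub, map_pow, map_intCast, heqx] at h2
    exact h2
  · intro z hz w hw hwe
    have h1 : ZSys e d i (algebraMap R M x') (fun j => eqv.symm (z j)) := by
      intro j hj
      apply eqv.injective
      have h2 := hz j hj
      simp only [map_mul, map_sub, map_pow, map_intCast, heqx, eqv.apply_symm_apply]
      exact h2
    have hne : ff (fun j => eqv.symm (z j)) w ≠ 0 := by
      unfold ff
      exact Finset.prod_ne_zero_iff.2 fun p hp => z_sub_ne he hd hxM h1 (hw p hp).2.1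
        (hw p hp).2.2 (hw p hp).1
    obtain ⟨h, hh⟩ := hCov.root _ hne fun W => by
      have h5 := ord_ff he hd hxM h1 hB hCov W w hw hwe
      exact_mod_cast h5
    refine ⟨eqv h, ?_⟩
    rw [← map_pow, hh]
    unfold ff
    rw [map_prod]
    refine Finset.prod_congr rfl fun p _ => ?_
    rw [map_sub, eqv.apply_symm_apply, eqv.apply_symm_apply]

end absI

theorem root : S_ROOT := by
  intro K _ _ e he hev h4 d hd F Ω _ _ _ _ _ _ _ _ x y hx hxy hF i
  classical
  haveI hac : IsAlgClosure ℚ (algebraicClosure ℚ Ω) := Pool.Agent.Y968.PC.algClosQ Ω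
  have hkb : IsAlgClosed (algebraicClosure ℚ Ω) := hac.1
  have hch : CharZero (algebraicClosure ℚ Ω) := inferInstance
  obtain ⟨δ, hδ⟩ : ∃ δ : algebraicClosure ℚ Ω, δ ^ 2 = (d : algebraicClosure ℚ Ω) :=
    IsAlgClosed.exists_pow_nat_eq _ (by norm_num)
  have hδ0 : δ ≠ 0 := by
    rintro rfl
    rw [zero_pow (by norm_num)] at hδ
    exact hd (by exact_mod_cast hδ.symm)
  have heinj : Function.Injective (fun i => ((e i : ℤ) : algebraicClosure ℚ Ω)) :=
    fun i j hij => he (Int.cast_injective hij)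
  set B : Finset (algebraicClosure ℚ Ω) :=
    Finset.univ.image (fun i => ((e i : ℤ) : algebraicClosure ℚ Ω)) with hB
  have hBc : B.card = Fintype.card K := by
    rw [hB, Finset.card_image_of_injective _ heinj, Finset.card_univ]
  set Y0 : Ω := (δ : Ω) * algebraMap F Ω y with hY0
  have hY : Y0 ^ 2 = ∏ a ∈ B, (algebraMap F Ω x - algebraMap (algebraicClosure ℚ Ω) Ω a) := by
    have h5 := congrArg (algebraMap F Ω) hxy
    rw [map_mul, map_pow, map_prod, ← IsScalarTower.algebraMap_apply] at h5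
    have h6 : (δ : Ω) ^ 2 = algebraMap ℚ Ω (d : ℚ) := by
      have h7 := congrArg (algebraMap (algebraicClosure ℚ Ω) Ω) hδ
      rw [map_pow, map_intCast] at h7
      rw [map_intCast]
      exact h7
    rw [hY0, mul_pow, h6, h5, hB, Finset.prod_image fun i _ j _ hij => heinj hij]
    refine Finset.prod_congr rfl fun i _ => ?_
    rw [map_sub, ← IsScalarTower.algebraMap_apply, map_intCast, map_intCast]
  have hX0 : Transcendental ℚ (algebraMap F Ω x) :=
    (transcendental_algebraMap_iff (R := ℚ) (algebraMap F Ω).injective (a := x)).2 hx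
  have hrat := ratF_adj (trans_up hX0)
  have hYR : Y0 ^ 2 ∈ IntermediateField.adjoin (algebraicClosure ℚ Ω) {algebraMap F Ω x} := by
    rw [hY]
    exact prod_mem fun a _ => sub_mem (IntermediateField.mem_adjoin_simple_self _ _)
      (IntermediateField.algebraMap_mem _ a)
  haveI hclR := closure_R hF δ hδ0 (by norm_num : 0 < 2) hYR
  exact rootI (R := IntermediateField.adjoin (algebraicClosure ℚ Ω) {algebraMap F Ω x}) e he d hd
    ⟨algebraMap F Ω x, IntermediateField.mem_adjoin_simple_self _ _⟩ hrat B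
    (by rw [hBc]; exact hev.two_dvd) (by rw [hBc]; omega)
    (fun j => Finset.mem_image.2 ⟨j, Finset.mem_univ j, rfl⟩) Y0 hY (geomPro 2 ℚ F Ω)
    (fun z => maxPro_geom 2 ℚ hF δ hδ0 z) x rfl i

end Pool.Agent.Run7.h369.D3
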