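import Pool.Agent.Run7.h369.D3.Att

/-! # Agreement of the section with an automorphism which stabilises the place -/

set_option autoImplicit false
set_option linter.all false

namespace Pool.Agent.Run7.h369.D3

open Finset Pool.Agent.Y157.PS Pool.Agent.Y157.PC

section tfix

variable {κ Ω : Type} [Field κ] [IsAlgClosed κ] [Field Ω] [CharZero Ω] (ι : κ →+* Ω)
  {W : ValuationSubring Ω} (hι : ∀ c, ι c ∈ W) (hW : ∀ c : ℚ, (c : Ω) ∈ W)
  {K : Type} [Fintype K] [DecidableEq K] {e : K → ℤ} (he : Function.Injective e) {d : ℤ}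
  (hd : d ≠ 0) {i : K} {x y : Ω} (hx : ∀ n : ℤ, x ≠ (n : Ω)) {z : K → Ω} (hz : ZSys e d i x z)
  (hxy : (d : Ω) * y ^ 2 = ∏ l, (x - (e l : Ω))) (hxW : x - (e i : Ω) ∈ W.nonunits)
  (hev : Even (Fintype.card K))
  (t : Ω →+* Ω) (htW : ∀ z, t z ∈ W ↔ z ∈ W) (τ : κ →+* κ) (hτ : ∀ c, t (ι c) = ι (τ c))
  (htx : t x = x) (hty : t y = y)

include hι hW he hd hx hz hxy hxW hev htW hτ htx hty in
/-- the `z j` are fixed -/
theorem t_fix_z {j : K} (hj : j ≠ i) : t (z j) = z j := by
  have hnon : ∀ z ∈ W.nonunits, t z ∈ W.nonunits := fun z hz => non_stable t htW hz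
  refine fix_of_ratio he hd hx hz hxy hev t htx hty (fun j k hj hk => ?_) hj
  have hsq : t (z j / z k) ^ 2 = (z j / z k) ^ 2 := by
    rw [map_div₀, div_pow, div_pow, z_sq_fix he hd hx hz t htx hj,
      z_sq_fix he hd hx hz t htx hk]
  rcases Pool.Agent.W623.SecG.sign_choice (ratio_sq hW he hd hx hz hxW hj hk) with h | h
  · refine fixed_of_res ι hι t hnon τ hτ _ hsq 1 one_ne_zero (map_one τ) ?_
    rw [map_one]
    exact h
  · refine fixed_of_res ι hι t hnon τ hτ _ hsq (-1) (neg_ne_zero.2 one_ne_zero)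
      (by rw [map_neg, map_one]) ?_
    rw [map_neg, map_one]
    have h1 : z j / z k - -1 = -(-(z j / z k) - 1) := by ring
    rw [h1]
    exact non_neg h

include hι hW he hd hx hz hxy hxW hev htW hτ htx hty in
/-- the square roots of the `f_w` are fixed -/
theorem t_fix_v {j0 : K} (hj0 : j0 ≠ i) (w : Finset (K × K)) (hw : Adm i w)
    (hwe : Even w.card) (l : ℤ) (hl : l ≠ 0) (v : Ω) (hv : (l : Ω) * v ^ 2 = ff z w)
    (hsq : IsSquare (l * (cc e i (pat W z i j0) w * d ^ nn (pat W z i j0) w))) : t v = v := by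
  set L := pat W z i j0 with hL
  haveI hch : CharZero κ := by
    refine ⟨fun a b hab => ?_⟩
    have h1 := congrArg ι hab
    rw [map_natCast, map_natCast] at h1
    exact_mod_cast h1
  have hnon : ∀ z ∈ W.nonunits, t z ∈ W.nonunits := fun z hz => non_stable t htW hz
  have hzj : ∀ j, j ≠ i → t (z j) = z j := fun j hj =>
    t_fix_z ι hι hW he hd hx hz hxy hxW hev t htW τ hτ htx hty hj
  set N : ℤ := cc e i L w * d ^ nn L w with hN
  have hN0 : N ≠ 0 := mul_ne_zero (cc_ne e he i L w hw) (pow_ne_zero _ hd)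
  set T : Ω := tw e d i L (z j0) w with hT
  have hT0 : T ≠ 0 := tw_ne he hd (z_ne hx hz hj0) w hw
  have htT : t T = T := tw_fix t (hzj j0 hj0) w
  have hlead := lead_w hW he hd hx hz hxW hj0 w hw hwe
  rw [← hL, ← hN, ← hT, ← hv] at hlead
  have hρ : Lt W ((l : Ω) * (v / T) ^ 2) (N : Ω) := by
    refine ⟨by exact_mod_cast hN0, ?_⟩
    have h1 := hlead.2
    have hNΩ : (N : Ω) ≠ 0 := by exact_mod_cast hN0
    have h2 : (l : Ω) * v ^ 2 / ((N : Ω) * T ^ 2) = (l : Ω) * (v / T) ^ 2 / (N : Ω) := by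
      field_simp
    rw [h2] at h1
    exact h1
  obtain ⟨μ, hμ, hres⟩ := res_root ι hι hW l N hl hN0 (v / T) hρ
  have hlκ : (l : κ) ≠ 0 := by exact_mod_cast hl
  have hNκ : (N : κ) ≠ 0 := by exact_mod_cast hN0
  have hμ0 : μ ≠ 0 := by
    rintro rfl
    rw [zero_pow (by norm_num), mul_zero] at hμ
    exact hNκ hμ.symm
  have hτμ : τ μ = μ := by
    obtain ⟨r, hr⟩ := hsq
    have h1 : ((l : κ) * μ) ^ 2 = (r : κ) ^ 2 := by
      have h2 : ((l : κ) * μ) ^ 2 = ((l * N : ℤ) : κ) := by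
        push_cast
        linear_combination (l : κ) * hμ
      rw [h2, hr]
      push_cast
      ring
    have h2 : τ ((l : κ) * μ) = (l : κ) * μ := by
      rcases sq_eq_sq_iff_eq_or_eq_neg.1 h1 with h | h
      · rw [h, map_intCast]
      · rw [h, map_neg, map_intCast]
    rw [map_mul, map_intCast] at h2
    exact mul_left_cancel₀ hlκ h2
  have hv2 : t v ^ 2 = v ^ 2 := by
    have hlΩ : (l : Ω) ≠ 0 := by exact_mod_cast hl
    have h1 : t (ff z w) = ff z w := by
      unfold ff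
      rw [map_prod]
      refine Finset.prod_congr rfl fun p hp => ?_
      rw [map_sub, hzj _ (hw p hp).2.1, hzj _ (hw p hp).2.2]
    rw [← hv, map_mul, map_pow, map_intCast] at h1
    exact mul_left_cancel₀ hlΩ h1
  have h1 := fixed_of_res ι hι t hnon τ hτ (v / T) (by
    rw [map_div₀, htT, div_pow, div_pow, hv2]) μ hμ0 hτμ hres
  rw [map_div₀, htT] at h1
  have h2 := congrArg (fun a => a * T) h1
  simp only [div_mul_cancel₀ _ hT0] at h2
  exact h2

end tfix

section agree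

variable {κ N Ω : Type} [Field κ] [IsAlgClosed κ] [Field N] [CharZero N] [Field Ω] (ι : κ →+* N)
  (gs gt : N →+* Ω) (hc : ∀ c, gs (ι c) = gt (ι c))

include hc in
/-- agreement on constant multiples of square roots -/
theorem agree_of_sq (u w : N) (c : κ) (hu : gs u = gt u) (hw : w ^ 2 = ι c * u ^ 2) :
    gs w = gt w := by
  by_cases h0 : u = 0
  · rw [h0, zero_pow (by norm_num), mul_zero] at hw
    rw [pow_eq_zero_iff (by norm_num)] at hw
    rw [hw, map_zero, map_zero]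
  · have h1 : (w / u) ^ 2 = ι c := by
      rw [div_pow, hw, mul_div_cancel_right₀ _ (pow_ne_zero _ h0)]
    obtain ⟨a, ha⟩ := Pool.Agent.W620.SC.root_mem ι (n := 2) (by norm_num) h1
    have h2 : w = ι a * u := by rw [ha, div_mul_cancel₀ _ h0]
    rw [h2, map_mul, map_mul, hc, hu]

variable {K : Type} [Fintype K] [DecidableEq K] {e : K → ℤ} (he : Function.Injective e) {d : ℤ}
  (hd : d ≠ 0) {i : K} {x : N} (hx : ∀ n : ℤ, x ≠ (n : N)) {z : K → N} (hz : ZSys e d i x z)
  (hgz : ∀ j, j ≠ i → gs (z j) = gt (z j))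

include he hd hx hz in
/-- all roots are constant multiples of the `z j` -/
theorem root_const {l : K} (hl : l ≠ i) (z' : N)
    (hz' : z' ^ 2 * ((x - (e i : N)) * ((e i : N) - (e l : N))) = x - (e l : N)) :
    ∃ c : κ, c ^ 2 = ((d * Gi e i : ℤ) : κ) ∧ z' = ι c * z l := by
  haveI hch : CharZero κ := by
    refine ⟨fun a b hab => ?_⟩
    have h1 := congrArg ι hab
    rw [map_natCast, map_natCast] at h1
    exact_mod_cast h1
  have h0 := z_ne hx hz hl
  have hxi : x - (e i : N) ≠ 0 := sub_ne_zero.2 (hx _)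
  have hil := sub_e_ne (M := N) he (Ne.symm hl)
  have h1 : z' ^ 2 = ((d * Gi e i : ℤ) : N) * z l ^ 2 := by
    apply mul_right_cancel₀ (mul_ne_zero hxi hil)
    rw [hz', ← hz l hl]
    push_cast
    ring
  have h2 : (z' / z l) ^ 2 = ι ((d * Gi e i : ℤ) : κ) := by
    rw [div_pow, h1, mul_div_cancel_right₀ _ (pow_ne_zero _ h0), map_intCast]
  obtain ⟨c, hc⟩ := Pool.Agent.W620.SC.root_mem ι (n := 2) (by norm_num) h2
  refine ⟨c, ?_, ?_⟩
  · apply ι.injective
    rw [← h2, map_pow, hc]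
  · rw [hc, div_mul_cancel₀ _ h0]

include he hd hx hz hgz in
/-- differences of roots -/
theorem diff_const {j k : K} (hj : j ≠ i) (hk : k ≠ i) (hjk : j ≠ k) (z1 z2 : N)
    (h1 : z1 ^ 2 * ((x - (e i : N)) * ((e i : N) - (e j : N))) = x - (e j : N))
    (h2 : z2 ^ 2 * ((x - (e i : N)) * ((e i : N) - (e k : N))) = x - (e k : N)) :
    ∃ (c : κ) (q : N), gs q = gt q ∧ z1 - z2 = ι c * (z j - z k) * q ^ 2 := by
  haveI hch : CharZero κ := by
    refine ⟨fun a b hab => ?_⟩
    have h1 := congrArg ι hab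
    rw [map_natCast, map_natCast] at h1
    exact_mod_cast h1
  obtain ⟨c1, hc1, rfl⟩ := root_const ι he hd hx hz hj z1 h1
  obtain ⟨c2, hc2, rfl⟩ := root_const ι he hd hx hz hk z2 h2
  have h3 : c1 ^ 2 = c2 ^ 2 := by rw [hc1, hc2]
  rcases sq_eq_sq_iff_eq_or_eq_neg.1 h3 with h | h
  · refine ⟨c1, 1, by rw [map_one, map_one], ?_⟩
    rw [← h]
    ring
  · set D : ℤ := (e j - e k) with hD
    set E : ℤ := d * Gi e i * ((e i - e j) * (e i - e k)) with hE
    have hE0 : (E : N) ≠ 0 := by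
      have : E ≠ 0 := mul_ne_zero (mul_ne_zero hd (Gi_ne e he i))
        (mul_ne_zero (sub_ne_zero.2 (he.ne hj.symm)) (sub_ne_zero.2 (he.ne hk.symm)))
      exact_mod_cast this
    have h4 := z_diff he hd hx hz hj hk
    have h5 := z_sub_ne he hd hx hz hj hk hjk
    refine ⟨c1 * ((D : κ) / (E : κ)), (z j - z k)⁻¹, ?_, ?_⟩
    · rw [map_inv₀, map_inv₀, map_sub, map_sub, hgz j hj, hgz k hk]
    · have h6 : c2 = -c1 := by rw [h, neg_neg]
      have h7 : (z j + z k) * (z j - z k) * (E : N) = (D : N) := by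
        rw [hD, hE]
        push_cast
        linear_combination h4
      have h8 : z j + z k = (D : N) / (E : N) * (z j - z k)⁻¹ := by
        rw [← h7]
        field_simp
      rw [h6]
      simp only [map_neg, map_mul, map_div₀, map_intCast]
      have h9 : ι c1 * z j - -ι c1 * z k = ι c1 * (z j + z k) := by ring
      rw [h9, h8]
      field_simp

include hc he hd hx hz hgz in
/-- agreement on the generators of the third level -/
theorem agree_w {j k l m : K} (hj : j ≠ i) (hk : k ≠ i) (hl : l ≠ i) (hm : m ≠ i) (hjk : j ≠ k)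
    (hlm : l ≠ m)
    (hv : (j, k) ≠ (l, m) → ∃ (a : ℤ) (v : N), gs v = gt v ∧
      (a : N) * v ^ 2 = (z j - z k) * (z l - z m))
    (z1 z2 z3 z4 w : N)
    (h1 : z1 ^ 2 * ((x - (e i : N)) * ((e i : N) - (e j : N))) = x - (e j : N))
    (h2 : z2 ^ 2 * ((x - (e i : N)) * ((e i : N) - (e k : N))) = x - (e k : N))
    (h3 : z3 ^ 2 * ((x - (e i : N)) * ((e i : N) - (e l : N))) = x - (e l : N))
    (h4 : z4 ^ 2 * ((x - (e i : N)) * ((e i : N) - (e m : N))) = x - (e m : N))
    (hw : w ^ 2 = (z1 - z2) * (z3 - z4)) : gs w = gt w := by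
  obtain ⟨c, q, hq, e1⟩ := diff_const ι gs gt he hd hx hz hgz hj hk hjk z1 z2 h1 h2
  obtain ⟨c', q', hq', e2⟩ := diff_const ι gs gt he hd hx hz hgz hl hm hlm z3 z4 h3 h4
  by_cases hne : (j, k) = (l, m)
  · obtain ⟨rfl, rfl⟩ := Prod.mk.inj hne
    refine agree_of_sq ι gs gt hc ((z j - z k) * (q * q')) w (c * c') ?_ ?_
    · simp only [map_mul, map_sub, hgz j hj, hgz k hk, hq, hq']
    · rw [hw, e1, e2, map_mul]
      ring
  · obtain ⟨a, v, hv1, hv2⟩ := hv hne
    refine agree_of_sq ι gs gt hc (v * (q * q')) w (c * c' * (a : κ)) ?_ ?_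
    · simp only [map_mul, hv1, hq, hq']
    · rw [hw, e1, e2, map_mul, map_mul, map_intCast]
      linear_combination (-(ι c * ι c' * (q * q') ^ 2)) * hv2

end agree

end Pool.Agent.Run7.h369.D3
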