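import Mathlib
import Pool.Agent.W262.TW.Stm2

/-!
# Counting theorem for the twists (project D3, helper369)

`K` is a finite set of types, `R` a finite set of conditions, `a w j` is a sign (`Bool`) and `c j w` a
nonzero integer.  For a squarefree `d` we look for squarefree integers `s w` (`w ∈ R`) such that

* `s w` is prime to the primes `p > z0` which do not divide `d`,
* for each prime `p > z0`, `p ∣ d` there is a type `j` such that for all `w` the number `s w` is in
  the square class of `c j w * d ^ (a w j)` in `ℚ_p`,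
* for no type `j` all `s w * c j w * d ^ (a w j)` are squares (the trivial solutions are excluded).

`S_ACT` says that for almost all `d` there are no such `s`.

PROOF of `S_ACT`.  `|K| ≥ 1` (if `K` is empty then `SelA` forces `d` to have no prime factor `> z0`,
finitely many squarefree `d`; or choose `δ = 1`).

(1) Reduction (as `Pool.Agent.W262.G3.redr`, `W311.TW`).  Let `z ≥ z0` be larger than all prime factors
of `2 ∏ c j w`, `d` with `SelA`, and choose for each prime `p > z`, `p ∣ d`, a type `j(p)`.  Let `D j` be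
the product of the `p` of type `j`.  Then `d = d0 * ∏ j, D j` with `d0 ∈ EE z`, and
`s w = g w * ∏_{j : a w j} D j` with `g w ∈ EE z`, because `p ∣ s w` iff `a w (j(p))`.  For `p ∣ D j`
the condition reads, for all `w`,

  `jacobiSym (γ j w * ∏_{k : a w k ≠ a w j} D k) p = 1`, `γ j w := g w * c j w * (if a w j then d0 else 1)`

(if `a w j` then `(s w / p) (d / p)` is `g w d0 ∏_{k : ¬ a w k} D k` times a square prime to `p`).  So the
number of the `d` is at most `∑_{d0 ∈ EE z} ∑_{g : R → EE z} (number of the tuples D)`, where `D` runs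
through the tuples of pairwise coprime squarefree `z`-rough numbers with `∏ D j ≤ X` (`TT`, `Rg`), which
satisfy the displayed conditions, i.e. `ngs (fun k => D k) j p ∈ Θ j p` with

  `Θ j p = {N ⊆ univ.erase j | ∀ w, jacobiSym (γ j w) p * (-1) ^ #{k ∈ N | a w k ≠ a w j} = 1}`

(use `κ = fun _ => 1` in `cnt`), and the condition NC: for all `j` there is `w` such that
`γ j w * ∏_{k : a w k ≠ a w j} D k` is no square.

(2) Small and large variables (as `REGS`, proof in `Pool/Agent/W762/TW/Regs.lean`; there only the special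
form of `Ths` and `NC` has to be replaced).  For `V ≥ 1` the number of the `D` is at most
`V ^ |K| + ∑_{I ≠ ∅} ∑_u cnt z (X / ∏ u) V 1 (Θ_{I,u})`, `I = {k | D k > V}`, `u k = D k` for `k ∉ I`,
`u k = 1` for `k ∈ I`, where for `j ∈ I`

  `Θ_{I,u} j p = {N ⊆ I \ {j} | ∀ w, jacobiSym (γ j w * ∏_{k ∉ I, a w k ≠ a w j} u k) p *
      (-1) ^ #{k ∈ N | a w k ≠ a w j} = 1}`

and if `I = {j}` then there is `w` such that `γ j w * ∏_{k ≠ j, a w k ≠ a w j} u k` is no square (NC).

(3) Weights (as `PRS`, proof in `Pool/Agent/W554/TW/Prs.lean`).  Let `j ∈ I`.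
 (3a) `|Θ_{I,u} j p| * |I| ≤ 2 ^ (|I| - 1)`: the map `(N, k) ↦ N ∆ {k}` for `k ≠ j`, `(N, j) ↦ N`, from
  `Θ × I` to the subsets of `I \ {j}` is injective: if `N ∆ {k} = N' ∆ {k'}` then for every `w` the
  numbers `#{l ∈ N | a w l ≠ a w j}` and `#{l ∈ N' | ...}` have the same parity (both are determined by
  `jacobiSym`), so `[a w k ≠ a w j]` and `[a w k' ≠ a w j]` agree (for `k = j` it is 0), i.e.
  `a w k = a w k'` for all `w`, hence `k = k'` by the hypothesis.
 (3b) if `|I| ≥ 2`, take `j ≠ k` in `I` and `w` with `a w l = false` for all `l` and `c j w * c k w` no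
  square.  Then `g w * c j w` or `g w * c k w` is no square, say the first one, and
  `Θ_{I,u} j p = ∅` if `jacobiSym (g w * c j w) p = -1`.  So by `UBQ`
  (`W578.TW.UBQ.ubq`) and Mertens (`W554.TW.mert`)
  `∑_{p ∈ PS z Y} |Θ j p| / p ≤ 2 ^ (|I| - 1) / |I| * (1 / 2 * log log Y + C (1 + log log (V + 3)))`.
 (3c) if `I = {j}` the same with the `w` of NC, `|Θ| ≤ 1`.
 So in all cases `∑_{j ∈ I} ∑_p |Θ_{I,u} j p| / p ≤ ((1 - 1 / (2 |K|)) log log Y +
  C (1 + log log (V + 3))) * 2 ^ (|I| - 1)`.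

(4) The final estimate (as `Pool/Agent/W460/TW/Fins.lean`, theorem `key`, and `finr3`, `finr` in
`Pool/Agent/W262/G3/Red.lean`), with `abs1_all` (`Pool/Agent/W262/TW/Full.lean`), `3 / 4` replaced by
`1 - η`, `η = 1 / (2 |K|)`, and `δ = η / 2` (choose `ε` in `ABS1` small compared with `η`).
-/

set_option autoImplicit false

namespace Pool.Agent.Run7.h369.D3

open Finset Pool.Agent.W262.RK Pool.Agent.W262.TW

section

variable {K R : Type}

/-- the condition on the numbers `s w` at a prime factor `p` of `d`, for the type `j` -/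
def LC (a : R → K → Bool) (c : K → R → ℤ) (d : ℤ) (s : R → ℤ) (p : ℕ) (j : K) : Prop :=
  ∀ w, (a w j = true → (p : ℤ) ∣ s w ∧ jacobiSym (s w / p * (d / p) * c j w) p = 1) ∧
    (a w j = false → ¬ (p : ℤ) ∣ s w ∧ jacobiSym (s w * c j w) p = 1)

/-- there is a nontrivial solution `s` for `d` -/
def SelA (a : R → K → Bool) (c : K → R → ℤ) (z0 : ℕ) (d : ℤ) : Prop :=
  ∃ s : R → ℤ, (∀ w, Squarefree (s w)) ∧
    (∀ p : ℕ, p.Prime → z0 < p → ¬ (p : ℤ) ∣ d → ∀ w, ¬ (p : ℤ) ∣ s w) ∧
    (∀ p : ℕ, p.Prime → z0 < p → (p : ℤ) ∣ d → ∃ j, LC a c d s p j) ∧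
    ∀ j, ∃ w, ¬ IsSquare (s w * c j w * (if a w j = true then d else 1))

end

/-- the counting theorem -/
def S_ACT : Prop :=
  ∀ (K R : Type) [Fintype K] [DecidableEq K] [Fintype R] [DecidableEq R] (a : R → K → Bool)
    (c : K → R → ℤ), (∀ j w, c j w ≠ 0) → (∀ j k, j ≠ k → ∃ w, a w j ≠ a w k) →
    (∀ j k, j ≠ k → ∃ w, (∀ l, a w l = false) ∧ ¬ IsSquare (c j w * c k w)) → ∀ z0 : ℕ,
    ∃ δ : ℝ, 0 < δ ∧ ∃ C : ℝ, ∀ X : ℕ, 2 ≤ X →
      ({d : ℤ | d.natAbs ≤ X ∧ Squarefree d ∧ SelA a c z0 d}.ncard : ℝ) ≤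
        C * X * (Real.log X) ^ (-δ)

end Pool.Agent.Run7.h369.D3
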