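import Pool.Agent.Y157.PC.All
import Pool.Agent.Y157.PS.TwQ
import Pool.Agent.Run7.h369.D3.Stm

/-! # Square roots of integers fixed by decomposition and inertia groups -/

set_option autoImplicit false
set_option linter.all false

namespace Pool.Agent.Run7.h369.D3

open Pool.Agent.Y157.PS

/-- the residue field of `ℤ_(p)` -/
theorem card_res {A : Type} [CommRing A] [IsLocalRing A] [Finite (IsLocalRing.ResidueField A)]
    {p : ℕ} (hp : p.Prime)
    (hm : ∀ n : ℤ, (n : A) ∈ IsLocalRing.maximalIdeal A ↔ (p : ℤ) ∣ n)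
    (hres : ∀ a : A, ∃ n : ℤ, a - n ∈ IsLocalRing.maximalIdeal A) :
    Nat.card (IsLocalRing.ResidueField A) = p := by
  have hc : ∀ n : ℤ, ((n : ℤ) : IsLocalRing.ResidueField A) = 0 ↔ (p : ℤ) ∣ n := by
    intro n
    rw [← hm, ← IsLocalRing.residue_eq_zero_iff, map_intCast]
  haveI : CharP (IsLocalRing.ResidueField A) p := by
    refine ⟨fun x => ?_⟩
    have := hc x
    rw [Int.cast_natCast] at this
    rw [this, Int.natCast_dvd_natCast]
  haveI : NeZero p := ⟨hp.ne_zero⟩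
  have hsurj : Function.Surjective (ZMod.castHom (dvd_refl p) (IsLocalRing.ResidueField A)) := by
    intro r
    obtain ⟨a, rfl⟩ := IsLocalRing.residue_surjective r
    obtain ⟨n, hn⟩ := hres a
    refine ⟨(n : ZMod p), ?_⟩
    rw [map_intCast]
    rw [← IsLocalRing.residue_eq_zero_iff, map_sub, map_intCast, sub_eq_zero] at hn
    exact hn.symm
  have hbij : Function.Bijective (ZMod.castHom (dvd_refl p) (IsLocalRing.ResidueField A)) :=
    ⟨ZMod.castHom_injective _, hsurj⟩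
  rw [← Nat.card_congr (Equiv.ofBijective _ hbij), Nat.card_zmod]

section

variable {κ : Type} [Field κ] [Algebra ℚ κ] [IsAlgClosure ℚ κ]

/-- the localisation at `p` under `V` -/
theorem locA (p : ℕ) (hp : p.Prime) (V : ValuationSubring κ) (hV : (p : κ) ∈ V.nonunits) :
    (∀ c : κ, c ≠ 0 → (∀ σ : κ ≃ₐ[ℚ] κ, Ine V σ → σ c = c) → ∃ j : ℤ, IsU V (c / (p : κ) ^ j)) ∧
    ∃ σ : κ ≃ₐ[ℚ] κ, Fro V p σ := by
  obtain ⟨A, _, _, _, _, hfin, hfrac, hpi, hm, hres⟩ := Pool.Agent.W240.S3.zloc p hp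
  letI : Algebra A κ := ((algebraMap ℚ κ).comp (algebraMap A ℚ)).toAlgebra
  haveI hst : IsScalarTower A ℚ κ := IsScalarTower.of_algebraMap_eq (fun _ => rfl)
  haveI : CharZero κ := charZero_of_injective_algebraMap (algebraMap ℚ κ).injective
  have hint : ∀ n : ℤ, (n : κ) ∈ V := fun n => intCast_mem V n
  have hcastA : ∀ n : ℤ, algebraMap A ℚ (n : A) = (n : ℚ) := fun n => map_intCast _ _
  have hAq : ∀ a : A, ∃ n c : ℤ, ¬ (p : ℤ) ∣ c ∧ a * (c : A) = (n : A) := by
    intro a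
    set q : ℚ := algebraMap A ℚ a with hq
    by_cases hpc : (p : ℤ) ∣ (q.den : ℤ)
    · exfalso
      have hpn : ¬ (p : ℤ) ∣ q.num := by
        intro h
        have h1 := q.reduced
        have h2 : p ∣ q.num.natAbs := Int.natCast_dvd.1 h
        have h3 : p ∣ q.den := by exact_mod_cast hpc
        have h4 : p ∣ Nat.gcd q.num.natAbs q.den := Nat.dvd_gcd h2 h3
        rw [h1] at h4
        exact hp.one_lt.ne' (Nat.dvd_one.1 h4)
      have h1 : a * ((q.den : ℤ) : A) = ((q.num : ℤ) : A) := by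
        apply IsFractionRing.injective A ℚ
        rw [map_mul, hcastA, hcastA, ← hq]
        push_cast
        exact Rat.mul_den_eq_num q
      have h2 : ((q.num : ℤ) : A) ∈ IsLocalRing.maximalIdeal A := by
        rw [← h1]
        exact Ideal.mul_mem_left _ _ ((hm _).2 hpc)
      exact hpn ((hm _).1 h2)
    · refine ⟨q.num, q.den, hpc, ?_⟩
      apply IsFractionRing.injective A ℚ
      rw [map_mul, hcastA, hcastA, ← hq]
      push_cast
      exact Rat.mul_den_eq_num q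
  have hVa : ∀ a : A, algebraMap A κ a ∈ V := by
    intro a
    obtain ⟨n, c, hc, hac⟩ := hAq a
    have h1 := congrArg (algebraMap A κ) hac
    rw [map_mul, map_intCast, map_intCast] at h1
    have h2 := Pool.Agent.Y968.PC.int_isU V hp hV hc
    have h3 : algebraMap A κ a = (n : κ) * (c : κ)⁻¹ := by
      rw [← h1, mul_inv_cancel_right₀ h2.1]
    rw [h3]
    exact mul_mem (hint n) h2.2.2
  have hVm : ∀ a ∈ IsLocalRing.maximalIdeal A, algebraMap A κ a ∈ V.nonunits := by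
    intro a ha
    rw [hpi.maximalIdeal_eq, Ideal.mem_span_singleton] at ha
    obtain ⟨c, rfl⟩ := ha
    rw [map_mul, map_natCast, mul_comm]
    exact non_mul (hVa c) hV
  constructor
  · intro c hc0 hc
    have h := Pool.Agent.Y183.PS.ine A ℚ κ V (p : A) hVa hVm hpi c hc0 hc
    rw [map_natCast] at h
    exact h
  · have h := Pool.Agent.Y183.PS.fro A ℚ κ V hVa hVm
    rw [card_res hp hm hres] at h
    exact h

theorem int_non (p : ℕ) (hp : p.Prime) (V : ValuationSubring κ) (hV : (p : κ) ∈ V.nonunits)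
    (n : ℤ) (hn : (n : κ) ∈ V.nonunits) : (p : ℤ) ∣ n := by
  by_contra h
  exact (Pool.Agent.Y968.PC.int_isU V hp hV h).not_nonunit hn

/-- the square root of an integer is fixed by inertia: the valuation is even -/
theorem ine_even (p : ℕ) (hp : p.Prime) (V : ValuationSubring κ) (hV : (p : κ) ∈ V.nonunits)
    (n : ℤ) (hn0 : n ≠ 0) (μ : κ) (hμ : μ ^ 2 = (n : κ))
    (hI : ∀ σ : κ ≃ₐ[ℚ] κ, Ine V σ → σ μ = μ) (hpn : (p : ℤ) ∣ n) : (p : ℤ) * p ∣ n := by
  haveI : CharZero κ := charZero_of_injective_algebraMap (algebraMap ℚ κ).injective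
  obtain ⟨m, rfl⟩ := hpn
  by_contra hno
  have hpm : ¬ (p : ℤ) ∣ m := by
    rintro ⟨r, rfl⟩
    exact hno ⟨r, by ring⟩
  have hm := Pool.Agent.Y968.PC.int_isU V hp hV hpm
  have hμ0 : μ ≠ 0 := by
    rintro rfl
    rw [zero_pow (by norm_num)] at hμ
    exact hn0 (by exact_mod_cast hμ.symm)
  obtain ⟨j, hj⟩ := (locA p hp V hV).1 μ hμ0 hI
  have hp0 : (p : κ) ≠ 0 := by exact_mod_cast hp.ne_zero
  have h1 : IsU V ((p : κ) ^ (1 - 2 * j)) := by
    have h2 := (hj.mul hj).div hm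
    have h3 : μ / (p : κ) ^ j * (μ / (p : κ) ^ j) / (m : κ) = (p : κ) ^ (1 - 2 * j) := by
      have h4 : μ / (p : κ) ^ j * (μ / (p : κ) ^ j) = μ ^ 2 / (p : κ) ^ (2 * j) := by
        rw [div_mul_div_comm, ← sq, ← zpow_add₀ hp0, two_mul]
      rw [h4, hμ, zpow_sub₀ hp0, zpow_one]
      push_cast
      have := hm.1
      field_simp
    rw [h3] at h2
    exact h2
  rcases lt_or_ge 0 (1 - 2 * j) with h | h
  · obtain ⟨a, ha⟩ := Int.eq_ofNat_of_zero_le h.le
    rw [ha, zpow_natCast] at h1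
    have h2 : IsU V (p : κ) := isU_of_pow (n := a) (by omega) h1
    exact h2.not_nonunit hV
  · have h1' := h1.inv
    rw [← zpow_neg] at h1'
    have h0 : 0 < -(1 - 2 * j) := by omega
    obtain ⟨a, ha⟩ := Int.eq_ofNat_of_zero_le h0.le
    rw [ha, zpow_natCast] at h1'
    have h2 : IsU V (p : κ) := isU_of_pow (n := a) (by omega) h1'
    exact h2.not_nonunit hV

/-- the square root of an integer is fixed by the decomposition group: a square -/
theorem dec_jac (p : ℕ) (hp : p.Prime) (hp2 : ¬ (p : ℤ) ∣ 2) (V : ValuationSubring κ)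
    (hV : (p : κ) ∈ V.nonunits) (n : ℤ) (μ : κ) (hμ : μ ^ 2 = (n : κ))
    (hD : ∀ σ : κ ≃ₐ[ℚ] κ, Dec V σ → σ μ = μ) (hpn : ¬ (p : ℤ) ∣ n) : jacobiSym n p = 1 := by
  haveI : CharZero κ := charZero_of_injective_algebraMap (algebraMap ℚ κ).injective
  haveI : Fact p.Prime := ⟨hp⟩
  obtain ⟨φ, hφ1, hφ2⟩ := (locA p hp V hV).2
  have hn := Pool.Agent.Y968.PC.int_isU V hp hV hpn
  have hμU : IsU V μ := isU_of_pow (n := 2) (by norm_num) (by rw [hμ]; exact hn)
  have h1 := hφ2 μ hμU.2.1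
  rw [hD φ hφ1] at h1
  have hodd : p % 2 = 1 := by
    rcases hp.eq_two_or_odd with h | h
    · exfalso
      apply hp2
      rw [h]
      exact dvd_refl _
    · exact h
  have h2 : μ - μ ^ p = μ * (((1 - n ^ (p / 2) : ℤ)) : κ) := by
    have h3 : p = 2 * (p / 2) + 1 := by omega
    conv_lhs => rw [h3]
    push_cast
    rw [pow_succ, pow_mul, hμ]
    ring
  rw [h2] at h1
  have h3 := int_non p hp V hV _ (non_of_isU_mul hμU h1)
  have h4 : ((n : ZMod p)) ^ (p / 2) = 1 := by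
    have h5 := (ZMod.intCast_zmod_eq_zero_iff_dvd (1 - n ^ (p / 2)) p).2 h3
    push_cast at h5
    exact (sub_eq_zero.1 h5).symm
  have h5 : (n : ZMod p) ≠ 0 := by
    intro h
    exact hpn ((ZMod.intCast_zmod_eq_zero_iff_dvd n p).1 h)
  have h6 := (ZMod.euler_criterion p h5).2 h4
  rw [← jacobiSym.legendreSym.to_jacobiSym]
  exact (legendreSym.eq_one_iff p h5).2 h6

/-- the local condition -/
theorem lc_of_root (p : ℕ) (hp : p.Prime) (hp2 : ¬ (p : ℤ) ∣ 2) (V : ValuationSubring κ)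
    (hV : (p : κ) ∈ V.nonunits) (d l c : ℤ) (hd : Squarefree d) (hpd : (p : ℤ) ∣ d)
    (hl : Squarefree l) (hc : ¬ (p : ℤ) ∣ c) (m : ℕ) (μ : κ)
    (hμ : (l : κ) * μ ^ 2 = ((c * d ^ m : ℤ) : κ))
    (hD : ∀ σ : κ ≃ₐ[ℚ] κ, Dec V σ → σ μ = μ) :
    (Odd m → (p : ℤ) ∣ l ∧ jacobiSym (l / p * (d / p) * c) p = 1) ∧
    (Even m → ¬ (p : ℤ) ∣ l ∧ jacobiSym (l * c) p = 1) := by
  haveI : CharZero κ := charZero_of_injective_algebraMap (algebraMap ℚ κ).injective
  have hpz := Nat.prime_iff_prime_int.mp hp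
  have hl0 := hl.ne_zero
  have hd0 := hd.ne_zero
  have hlκ : (l : κ) ≠ 0 := by exact_mod_cast hl0
  have hdκ : (d : κ) ≠ 0 := by exact_mod_cast hd0
  have hI : ∀ (σ : κ ≃ₐ[ℚ] κ) (n : ℤ), σ (n : κ) = (n : κ) := fun σ n => map_intCast _ _
  have hc0 : c ≠ 0 := by
    rintro rfl
    exact hc (dvd_zero _)
  constructor
  · rintro ⟨r, rfl⟩
    set ν : κ := (l : κ) * μ / (d : κ) ^ r with hν
    have hν2 : ν ^ 2 = ((l * (c * d) : ℤ) : κ) := by
      rw [hν, div_pow, mul_pow]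
      have h1 : (l : κ) ^ 2 * μ ^ 2 = (l : κ) * ((c * d ^ (2 * r + 1) : ℤ) : κ) := by
        rw [← hμ]; ring
      rw [h1]
      push_cast
      field_simp
      ring
    have hνD : ∀ σ : κ ≃ₐ[ℚ] κ, Dec V σ → σ ν = ν := by
      intro σ hσ
      rw [hν, map_div₀, map_mul, map_pow, hI, hI, hD σ hσ]
    have hdvd : (p : ℤ) * p ∣ l * (c * d) :=
      ine_even p hp V hV _ (mul_ne_zero hl0 (mul_ne_zero hc0 hd0)) ν hν2
        (fun σ hσ => hνD σ hσ.1) (Dvd.dvd.mul_left (Dvd.dvd.mul_left hpd _) _)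
    obtain ⟨d', hd'⟩ := hpd
    have hpd' : ¬ (p : ℤ) ∣ d' := by
      rintro ⟨b, hb⟩
      exact hpz.not_unit (hd _ ⟨b, by rw [hd', hb]; ring⟩)
    have hpl : (p : ℤ) ∣ l := by
      by_contra hpl
      rw [hd'] at hdvd
      obtain ⟨b, hb⟩ := hdvd
      have h2 : l * (c * d') = p * b := by
        have hp0 : (p : ℤ) ≠ 0 := by exact_mod_cast hp.ne_zero
        apply mul_left_cancel₀ hp0
        linear_combination hb
      rcases hpz.dvd_or_dvd ⟨b, h2⟩ with h | h
      · exact hpl h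
      · rcases hpz.dvd_or_dvd h with h | h
        · exact hc h
        · exact hpd' h
    refine ⟨hpl, ?_⟩
    obtain ⟨l', hl'⟩ := hpl
    have hp0 : (p : ℤ) ≠ 0 := by exact_mod_cast hp.ne_zero
    have hpκ : (p : κ) ≠ 0 := by exact_mod_cast hp.ne_zero
    have hpl' : ¬ (p : ℤ) ∣ l' := by
      rintro ⟨b, hb⟩
      exact hpz.not_unit (hl _ ⟨b, by rw [hl', hb]; ring⟩)
    have e1 : l / p = l' := by rw [hl', Int.mul_ediv_cancel_left _ hp0]
    have e2 : d / p = d' := by rw [hd', Int.mul_ediv_cancel_left _ hp0]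
    rw [e1, e2]
    refine dec_jac p hp hp2 V hV _ (ν / (p : κ)) ?_ ?_ ?_
    · rw [div_pow, hν2, hl', hd']
      push_cast
      field_simp
    · intro σ hσ
      rw [map_div₀, hνD σ hσ, map_natCast]
    · intro h
      rcases hpz.dvd_or_dvd h with h | h
      · rcases hpz.dvd_or_dvd h with h | h
        · exact hpl' h
        · exact hpd' h
      · exact hc h
  · rintro ⟨r, rfl⟩
    set ν : κ := (l : κ) * μ / (d : κ) ^ r with hν
    have hν2 : ν ^ 2 = ((l * c : ℤ) : κ) := by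
      rw [hν, div_pow, mul_pow]
      have h1 : (l : κ) ^ 2 * μ ^ 2 = (l : κ) * ((c * d ^ (r + r) : ℤ) : κ) := by
        rw [← hμ]; ring
      rw [h1]
      push_cast
      field_simp
      ring
    have hνD : ∀ σ : κ ≃ₐ[ℚ] κ, Dec V σ → σ ν = ν := by
      intro σ hσ
      rw [hν, map_div₀, map_mul, map_pow, hI, hI, hD σ hσ]
    have hpl : ¬ (p : ℤ) ∣ l := by
      intro hpl
      have hdvd : (p : ℤ) * p ∣ l * c :=
        ine_even p hp V hV _ (mul_ne_zero hl0 hc0) ν hν2 (fun σ hσ => hνD σ hσ.1)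
          (Dvd.dvd.mul_right hpl _)
      obtain ⟨l', hl'⟩ := hpl
      have hpl' : ¬ (p : ℤ) ∣ l' := by
        rintro ⟨b, hb⟩
        exact hpz.not_unit (hl _ ⟨b, by rw [hl', hb]; ring⟩)
      rw [hl'] at hdvd
      obtain ⟨b, hb⟩ := hdvd
      have h2 : l' * c = p * b := by
        have hp0 : (p : ℤ) ≠ 0 := by exact_mod_cast hp.ne_zero
        apply mul_left_cancel₀ hp0
        linear_combination hb
      rcases hpz.dvd_or_dvd ⟨b, h2⟩ with h | h
      · exact hpl' h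
      · exact hc h
    refine ⟨hpl, dec_jac p hp hp2 V hV _ ν hν2 hνD ?_⟩
    intro h
    rcases hpz.dvd_or_dvd h with h | h
    · exact hpl h
    · exact hc h

end

end Pool.Agent.Run7.h369.D3
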