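import Pool.Agent.Run7.h369.D3.Lead
import Pool.Agent.Run7.h369.D3.Loc
import Pool.Agent.W620.SC.Norm
import Pool.Agent.W311.TW.Red3

/-! # Kummer classes of the functions `f_w` -/

set_option autoImplicit false
set_option linter.all false

namespace Pool.Agent.Run7.h369.D3

open Finset Pool.Agent.Y157.PS Pool.Agent.W620.SC

section kum

variable {κ M : Type} [Field κ] [Algebra ℚ κ] [IsAlgClosure ℚ κ] [Field M] [CharZero M]

/-- Hilbert 90 -/
theorem kum (s : (κ ≃ₐ[ℚ] κ) →* RingAut M) (ι : κ →+* M) (hι : ∀ σ a, s σ (ι a) = ι (σ a))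
    (f h : M) (hf0 : f ≠ 0) (hf : ∀ σ, s σ f = f) (hh : h ^ 2 = f)
    (hE : ∃ E : IntermediateField ℚ κ, FiniteDimensional ℚ E ∧
      ∀ σ ∈ E.fixingSubgroup, s σ h = h) :
    ∃ (l : ℤ) (β : κ), Squarefree l ∧ (∀ σ, s σ (ι β * h) = ι β * h) ∧
      (l : M) * (ι β * h) ^ 2 = f ∧ β ≠ 0 ∧ (l : κ) * β ^ 2 = 1 := by
  haveI hkb : IsAlgClosed κ := IsAlgClosure.isAlgClosed ℚ
  haveI : Normal ℚ κ := IsAlgClosure.normal ℚ κ
  haveI hGal : IsGalois ℚ κ := ⟨⟩
  haveI : CharZero κ := charZero_of_injective_algebraMap (algebraMap ℚ κ).injective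
  have hh0 : h ≠ 0 := by
    rintro rfl
    rw [zero_pow (by norm_num)] at hh
    exact hf0 hh.symm
  obtain ⟨E, hE1, hE2⟩ := hE
  obtain ⟨b, hb0, hb⟩ := exists_fixed_multiple s ι hι ⊤ h hh0 (by
    intro σ _
    have h1 : (s σ h / h) ^ 2 = ι 1 := by
      rw [div_pow, ← map_pow, hh, hf, div_self hf0, map_one]
    obtain ⟨ζ, hζ⟩ := root_mem ι (n := 2) (by norm_num) h1
    exact ⟨ζ, by rw [hζ, div_mul_cancel₀ _ hh0]⟩) E hE2
  have hb2 : b ^ 2 ∈ (⊥ : IntermediateField ℚ κ) := by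
    apply mem_of_fixed
    intro σ _
    apply ι.injective
    have h1 : ι (b ^ 2) = (ι b * h) ^ 2 / f := by
      rw [mul_pow, hh, map_pow, mul_div_cancel_right₀ _ hf0]
    rw [← hι, h1, map_div₀, map_pow, hb σ (Subgroup.mem_top _), hf]
  obtain ⟨c, hc⟩ := IntermediateField.mem_bot.1 hb2
  have hc0 : c ≠ 0 := by
    rintro rfl
    rw [map_zero] at hc
    exact pow_ne_zero 2 hb0 hc.symm
  have hcn : c.num * (c.den : ℤ) ≠ 0 :=
    mul_ne_zero (Rat.num_ne_zero.2 hc0) (by exact_mod_cast c.den_nz)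
  obtain ⟨l, t, ht, hl, hlt⟩ := Pool.Agent.W311.TW.exists_sqf (c.num * c.den) hcn
  -- `c = l * (t / den)^2`, so `c⁻¹ = l * (den / (t * l))^2`
  have hl0 := hl.ne_zero
  have hcq : c = (l : ℚ) * ((t : ℚ) / (c.den : ℚ)) ^ 2 := by
    have h1 : c = (c.num : ℚ) / (c.den : ℚ) := (Rat.num_div_den c).symm
    have h2 : (c.den : ℚ) ≠ 0 := by exact_mod_cast c.den_nz
    have h3 : (c.num : ℚ) * (c.den : ℚ) = (l : ℚ) * (t : ℚ) ^ 2 := by exact_mod_cast hlt
    rw [div_pow, ← mul_div_assoc, ← h3, sq, mul_div_mul_right _ _ h2]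
    exact h1
  set r : ℚ := (c.den : ℚ) / ((t : ℚ) * (l : ℚ)) with hr
  have ht' : (t : ℚ) ≠ 0 := by exact_mod_cast ht
  have hl' : (l : ℚ) ≠ 0 := by exact_mod_cast hl0
  have hd' : (c.den : ℚ) ≠ 0 := by exact_mod_cast c.den_nz
  have hr0 : r ≠ 0 := div_ne_zero hd' (mul_ne_zero ht' hl')
  have hcr : (l : ℚ) * (r ^ 2 * c) = 1 := by
    rw [hcq, hr]
    field_simp
  refine ⟨l, algebraMap ℚ κ r * b, hl, ?_, ?_, ?_, ?_⟩
  · intro σ
    have h1 : ι (algebraMap ℚ κ r * b) * h = ι (algebraMap ℚ κ r) * (ι b * h) := by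
      rw [map_mul]; ring
    rw [h1, map_mul, hb σ (Subgroup.mem_top _), hι, σ.commutes]
  · have h1 : (l : M) * (ι (algebraMap ℚ κ r * b) * h) ^ 2 =
        ι (algebraMap ℚ κ ((l : ℚ) * (r ^ 2 * c))) * f := by
      rw [mul_pow, hh]
      simp only [map_mul, map_pow, map_intCast, hc]
      ring
    rw [h1, hcr, map_one, map_one, one_mul]
  · exact mul_ne_zero ((_root_.map_ne_zero _).2 hr0) hb0
  · have h1 : (l : κ) * (algebraMap ℚ κ r * b) ^ 2 = algebraMap ℚ κ ((l : ℚ) * (r ^ 2 * c)) := by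
      simp only [map_mul, map_pow, map_intCast, hc]
      ring
    rw [h1, hcr, map_one]

end kum

section gd

variable {K : Type} [Fintype K] [DecidableEq K] {M : Type} [Field M] [CharZero M]
  {e : K → ℤ} (he : Function.Injective e) {d : ℤ} (hd : d ≠ 0) {i : K}
  {x : M} (hx : ∀ n : ℤ, x ≠ (n : M)) {z : K → M} (hz : ZSys e d i x z)
  {p : ℕ} (hp : p.Prime) (hpd : ¬ (p : ℤ) ∣ d) (hpe : ∀ i j, i ≠ j → ¬ (p : ℤ) ∣ e i - e j)
  {O : ValuationSubring M} (hU : ∀ n : ℤ, ¬ (p : ℤ) ∣ n → IsU O (n : M))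
  (hX : ∀ n : ℤ, IsU O (x - (n : M)))

include hp hpe in
theorem not_dvd_Gi : ¬ (p : ℤ) ∣ Gi e i := by
  intro h
  unfold Gi at h
  obtain ⟨l, hl, hl'⟩ := (Nat.prime_iff_prime_int.mp hp).exists_mem_finset_dvd h
  exact hpe i l (Finset.ne_of_mem_erase hl).symm hl'

include he hd hx hz hp hpd hpe hU hX in
theorem z_isU {j : K} (hj : j ≠ i) : IsU O (z j) := by
  have h1 : IsU O (((d : M) * (Gi e i : M) * ((x - (e i : M)) * ((e i : M) - (e j : M))))) := by
    refine ((hU d hpd).mul (hU _ (not_dvd_Gi hp hpe))).mul ((hX _).mul ?_)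
    have := hU _ (hpe i j hj.symm)
    rwa [Int.cast_sub] at this
  refine isU_of_pow (n := 2) (by norm_num) ?_
  rw [z_sq he hd hx hz hj]
  exact (hX _).div h1

include he hd hx hz hp hpd hpe hU hX in
theorem sub_isU {j k : K} (hj : j ≠ i) (hk : k ≠ i) (hjk : j ≠ k) : IsU O (z j - z k) := by
  have h1 := z_isU he hd hx hz hp hpd hpe hU hX hj
  have h2 := z_isU he hd hx hz hp hpd hpe hU hX hk
  have h3 : IsU O ((d : M) * (Gi e i : M) * (((e i : M) - (e j : M)) *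
      ((e i : M) - (e k : M)))) := by
    refine ((hU d hpd).mul (hU _ (not_dvd_Gi hp hpe))).mul ?_
    have h4 := hU _ (hpe i j hj.symm)
    have h5 := hU _ (hpe i k hk.symm)
    rw [Int.cast_sub] at h4 h5
    exact h4.mul h5
  have h4 : IsU O ((z j - z k) * (z j + z k)) := by
    have h5 := hU _ (hpe j k hjk)
    rw [Int.cast_sub, ← z_diff he hd hx hz hj hk] at h5
    have h6 := h5.div h3
    rwa [mul_div_cancel_right₀ _ h3.1] at h6
  refine isU_of_not_nonunit (sub_mem h1.2.1 h2.2.1) fun h5 => ?_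
  have h6 := non_mul (add_mem h1.2.1 h2.2.1) h5
  rw [mul_comm] at h6
  exact h4.not_nonunit h6

include he hd hx hz hp hpd hpe hU hX in
theorem ff_isU (w : Finset (K × K)) (hw : Adm i w) : IsU O (ff z w) := by
  unfold ff
  have : ∀ s : Finset (K × K), (∀ q ∈ s, q ∈ w) → IsU O (∏ q ∈ s, (z q.1 - z q.2)) := by
    intro s
    induction s using Finset.induction_on with
    | empty =>
      intro _
      rw [Finset.prod_empty]
      exact isU_one
    | insert a s ha ih =>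
      intro h
      rw [Finset.prod_insert ha]
      have h1 := hw a (h a (Finset.mem_insert_self _ _))
      exact (sub_isU he hd hx hz hp hpd hpe hU hX h1.2.1 h1.2.2 h1.1).mul
        (ih fun q hq => h q (Finset.mem_insert_of_mem hq))
  exact this w fun q hq => hq

end gd

section gd2

variable {κ M : Type} [Field κ] [Algebra ℚ κ] [IsAlgClosure ℚ κ] [Field M] [CharZero M]

/-- the Kummer class is unramified at a prime of good reduction -/
theorem gd_not_dvd (p : ℕ) (hp : p.Prime) (hp2 : ¬ (p : ℤ) ∣ 2) (V : ValuationSubring κ)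
    (hV : (p : κ) ∈ V.nonunits) (s : (κ ≃ₐ[ℚ] κ) →* RingAut M) (ι : κ →+* M)
    (hι : ∀ σ a, s σ (ι a) = ι (σ a)) (O : ValuationSubring M)
    (hU : ∀ n : ℤ, ¬ (p : ℤ) ∣ n → IsU O (n : M))
    (hO : ∀ σ, Ine V σ → ∀ z ∈ O, s σ z - z ∈ O.nonunits) (h : M) (hh : IsU O h)
    (l : ℤ) (hl : Squarefree l) (β : κ) (hβ0 : β ≠ 0) (hβ : ∀ σ, s σ (ι β * h) = ι β * h)
    (hlβ : (l : κ) * β ^ 2 = 1) : ¬ (p : ℤ) ∣ l := by
  haveI : CharZero κ := charZero_of_injective_algebraMap (algebraMap ℚ κ).injective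
  have hfix : ∀ σ : κ ≃ₐ[ℚ] κ, Ine V σ → σ β = β := by
    intro σ hσ
    have h0 : σ β ≠ 0 := (map_ne_zero_iff σ σ.injective).2 hβ0
    have hsq : (σ β) ^ 2 = β ^ 2 := by
      have hl0 : (l : κ) ≠ 0 := by exact_mod_cast hl.ne_zero
      have h1 : β ^ 2 = ((l : κ))⁻¹ := by
        exact (eq_inv_of_mul_eq_one_right hlβ)
      rw [← map_pow, h1, map_inv₀, map_intCast]
    rcases sq_eq_sq_iff_eq_or_eq_neg.1 hsq with h1 | h1
    · exact h1
    · exfalso
      have h2 := hβ σ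
      rw [map_mul, hι, h1, map_neg] at h2
      have hι0 : ι β ≠ 0 := (_root_.map_ne_zero ι).2 hβ0
      have h3 : s σ h = -h := by
        apply mul_left_cancel₀ hι0
        linear_combination -h2
      have h4 := hO σ hσ h hh.2.1
      rw [h3] at h4
      have h5 : -h - h = h * ((-2 : ℤ) : M) := by push_cast; ring
      rw [h5] at h4
      have h6 := non_of_isU_mul hh h4
      exact (hU (-2) (fun h7 => hp2 ((Int.dvd_neg).1 h7))).not_nonunit h6
  intro hpl
  have h1 : ((l : κ) * β) ^ 2 = (l : κ) := by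
    linear_combination (l : κ) * hlβ
  have h2 := ine_even p hp V hV l hl.ne_zero ((l : κ) * β) h1 (fun σ hσ => by
    rw [map_mul, map_intCast, hfix σ hσ]) hpl
  exact (Nat.prime_iff_prime_int.mp hp).not_unit (hl _ h2)

end gd2

end Pool.Agent.Run7.h369.D3
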