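import Pool.Agent.Run7.h369.D3.Zs
import Pool.Agent.Y157.PS.Tools
import Pool.Agent.W623.SecG.Val

/-! # Leading terms at a place above the branch point -/

set_option autoImplicit false
set_option linter.all false

namespace Pool.Agent.Run7.h369.D3

open Finset Pool.Agent.Y157.PS

section lt

variable {M : Type} [Field M] {W : ValuationSubring M}

/-- `a` and `b` have the same leading term -/
def Lt (W : ValuationSubring M) (a b : M) : Prop := b ≠ 0 ∧ a / b - 1 ∈ W.nonunits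

theorem unit_of_sub {δ : M} (h : δ - 1 ∈ W.nonunits) : IsU W δ := by
  have h1 : δ ∈ W := by
    have h2 : δ = (δ - 1) + 1 := by ring
    rw [h2]
    exact add_mem (non_mem h) (one_mem _)
  refine isU_of_not_nonunit h1 fun h2 => ?_
  have h3 := non_sub h2 h
  have h4 : δ - (δ - 1) = 1 := by ring
  rw [h4] at h3
  exact isU_one.not_nonunit h3

theorem Lt.refl {b : M} (hb : b ≠ 0) : Lt W b b := by
  refine ⟨hb, ?_⟩
  rw [div_self hb, sub_self]
  exact nonunits_iff.2 ⟨zero_mem _, Or.inl rfl⟩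

theorem Lt.unit {a b : M} (h : Lt W a b) : IsU W (a / b) := unit_of_sub h.2

theorem Lt.ne {a b : M} (h : Lt W a b) : a ≠ 0 := by
  intro h0
  have := h.unit.1
  rw [h0, zero_div] at this
  exact this rfl

theorem Lt.mul {a b a' b' : M} (h : Lt W a b) (h' : Lt W a' b') : Lt W (a * a') (b * b') := by
  refine ⟨mul_ne_zero h.1 h'.1, ?_⟩
  have h1 : a * a' / (b * b') - 1 = (a / b) * (a' / b' - 1) + (a / b - 1) := by
    rw [mul_div_mul_comm]
    ring
  rw [h1]
  exact non_add (non_mul h.unit.2.1 h'.2) h.2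

theorem Lt.inv {a b : M} (h : Lt W a b) : Lt W a⁻¹ b⁻¹ := by
  refine ⟨inv_ne_zero h.1, ?_⟩
  have h0 := h.ne
  have h1 := h.1
  have h2 : a⁻¹ / b⁻¹ - 1 = -((a / b)⁻¹ * (a / b - 1)) := by
    field_simp
    ring
  rw [h2]
  exact non_neg (non_mul h.unit.2.2 h.2)

theorem Lt.prod {ι : Type} (s : Finset ι) (f g : ι → M) (h : ∀ i ∈ s, Lt W (f i) (g i)) :
    Lt W (∏ i ∈ s, f i) (∏ i ∈ s, g i) := by
  classical
  induction s using Finset.induction_on with
  | empty =>
    rw [Finset.prod_empty, Finset.prod_empty]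
    exact Lt.refl one_ne_zero
  | insert a s ha ih =>
    rw [Finset.prod_insert ha, Finset.prod_insert ha]
    exact (h a (Finset.mem_insert_self a s)).mul (ih fun i hi => h i (Finset.mem_insert_of_mem hi))

theorem Lt.congr {a b c : M} (h : Lt W a b) (hc : b = c) : Lt W a c := hc ▸ h

end lt

section signs

variable {K : Type} [Fintype K] [DecidableEq K]

/-- the sign -/
def sg (L : Finset K) (j : K) : ℤ := if j ∈ L then -1 else 1

/-- the pair is not separated by `L` -/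
def Nsep (L : Finset K) (p : K × K) : Prop := p.1 ∈ L ↔ p.2 ∈ L

instance (L : Finset K) : DecidablePred (Nsep L) := fun p => by unfold Nsep; infer_instance

/-- the factor of a pair -/
def qc (e : K → ℤ) (i : K) (L : Finset K) (p : K × K) : ℤ :=
  sg L p.1 * (if Nsep L p then Gi e i * ((e p.1 - e p.2) * ((e i - e p.1) * (e i - e p.2))) else 1)

/-- the constant of a set of pairs -/
def cc (e : K → ℤ) (i : K) (L : Finset K) (w : Finset (K × K)) : ℤ := ∏ p ∈ w, qc e i L p

/-- the number of the pairs which are not separated -/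
def nn (L : Finset K) (w : Finset (K × K)) : ℕ := (w.filter (Nsep L)).card

/-- the pairs are pairs of different elements different from `i` -/
def Adm (i : K) (w : Finset (K × K)) : Prop := ∀ p ∈ w, p.1 ≠ p.2 ∧ p.1 ≠ i ∧ p.2 ≠ i

theorem sg_sq (L : Finset K) (j : K) : sg L j * sg L j = 1 := by
  unfold sg
  split_ifs <;> norm_num

theorem sg_ne (L : Finset K) (j : K) : sg L j ≠ 0 := by
  unfold sg
  split_ifs <;> norm_num

theorem qc_ne (e : K → ℤ) (he : Function.Injective e) (i : K) (L : Finset K) (p : K × K)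
    (h1 : p.1 ≠ p.2) (h2 : p.1 ≠ i) (h3 : p.2 ≠ i) : qc e i L p ≠ 0 := by
  unfold qc
  refine mul_ne_zero (sg_ne L _) ?_
  split_ifs
  · exact mul_ne_zero (Gi_ne e he i) (mul_ne_zero (sub_ne_zero.2 (he.ne h1))
      (mul_ne_zero (sub_ne_zero.2 (he.ne h2.symm)) (sub_ne_zero.2 (he.ne h3.symm))))
  · exact one_ne_zero

theorem cc_ne (e : K → ℤ) (he : Function.Injective e) (i : K) (L : Finset K)
    (w : Finset (K × K)) (hw : Adm i w) : cc e i L w ≠ 0 :=
  Finset.prod_ne_zero_iff.2 fun p hp => qc_ne e he i L p (hw p hp).1 (hw p hp).2.1 (hw p hp).2.2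

theorem cc_d (e : K → ℤ) (i : K) (L : Finset K) (w : Finset (K × K)) (d : ℤ) :
    ∏ p ∈ w, (qc e i L p * (if Nsep L p then d else 1)) = cc e i L w * d ^ nn L w := by
  rw [Finset.prod_mul_distrib, Finset.prod_ite, Finset.prod_const_one, mul_one,
    Finset.prod_const]
  rfl

end signs

section lead

variable {K : Type} [Fintype K] [DecidableEq K] {M : Type} [Field M] [CharZero M]
  {W : ValuationSubring M} (hW : ∀ c : ℚ, (c : M) ∈ W)

include hW in
theorem int_unit {n : ℤ} (hn : n ≠ 0) : IsU W (n : M) := by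
  refine ⟨by exact_mod_cast hn, ?_, ?_⟩
  · have := hW (n : ℚ)
    rwa [Rat.cast_intCast] at this
  · have := hW ((n : ℚ)⁻¹)
    rwa [Rat.cast_inv, Rat.cast_intCast] at this

variable {e : K → ℤ} (he : Function.Injective e) {d : ℤ} (hd : d ≠ 0) {i : K}
  {x y : M} (hx : ∀ n : ℤ, x ≠ (n : M)) {z : K → M} (hz : ZSys e d i x z)
  (hxW : x - (e i : M) ∈ W.nonunits)

include hW he hd hx hz hxW in
theorem ratio_sq {j k : K} (hj : j ≠ i) (hk : k ≠ i) : (z j / z k) ^ 2 - 1 ∈ W.nonunits := by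
  have hd' : (d : M) ≠ 0 := by exact_mod_cast hd
  have hG : (Gi e i : M) ≠ 0 := by exact_mod_cast Gi_ne e he i
  have hxi : x - (e i : M) ≠ 0 := sub_ne_zero.2 (hx _)
  have hxk : x - (e k : M) ≠ 0 := sub_ne_zero.2 (hx _)
  have hij := sub_e_ne (M := M) he (Ne.symm hj)
  have hik := sub_e_ne (M := M) he (Ne.symm hk)
  have h1 : (z j / z k) ^ 2 - 1 = ((((e i - e j : ℤ) : M))⁻¹ * (x - (e k : M))⁻¹ *
      ((e j - e k : ℤ) : M)) * (x - (e i : M)) := by
    rw [div_pow, z_sq he hd hx hz hj, z_sq he hd hx hz hk]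
    push_cast
    field_simp
    ring
  rw [h1]
  refine non_mul (mul_mem (mul_mem ?_ ?_) ?_) hxW
  · exact (int_unit hW (sub_ne_zero.2 (he.ne hj.symm))).2.2
  · have h2 : IsU W (x - (e k : M)) := by
      have h3 := int_unit (W := W) hW (sub_ne_zero.2 (he.ne (Ne.symm hk)) : e i - e k ≠ 0)
      have h4 : x - (e k : M) = (x - (e i : M)) + ((e i - e k : ℤ) : M) := by push_cast; ring
      refine isU_of_not_nonunit ?_ fun h5 => ?_
      · rw [h4]
        exact add_mem (non_mem hxW) h3.2.1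
      · have h6 := non_sub h5 hxW
        rw [h4, add_sub_cancel_left] at h6
        exact h3.not_nonunit h6
    exact h2.2.2
  · have := hW ((e j - e k : ℤ) : ℚ)
    rwa [Rat.cast_intCast] at this

/-- the sign pattern at `W` -/
noncomputable def pat (W : ValuationSubring M) (z : K → M) (i j0 : K) : Finset K := by
  classical
  exact univ.filter fun j => j ≠ i ∧ z j / z j0 + 1 ∈ W.nonunits

theorem mem_pat {z : K → M} {i j0 j : K} : j ∈ pat W z i j0 ↔
    j ≠ i ∧ z j / z j0 + 1 ∈ W.nonunits := by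
  classical
  unfold pat
  rw [Finset.mem_filter]
  simp

theorem not_mem_pat_i {z : K → M} {i j0 : K} : i ∉ pat W z i j0 := by
  rw [mem_pat]
  exact fun h => h.1 rfl

include hW hx hz in
theorem not_mem_pat_j {j0 : K} (hj0 : j0 ≠ i) : j0 ∉ pat W z i j0 := by
  rw [mem_pat]
  rintro ⟨-, h⟩
  rw [div_self (z_ne hx hz hj0)] at h
  have h1 := int_unit (W := W) hW (show (2 : ℤ) ≠ 0 by norm_num)
  apply h1.not_nonunit
  have h2 : ((2 : ℤ) : M) = 1 + 1 := by norm_num
  rw [h2]
  exact h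

include hW he hd hx hz hxW in
theorem lead_z {j0 : K} (hj0 : j0 ≠ i) {j : K} (hj : j ≠ i) :
    Lt W (z j) ((sg (pat W z i j0) j : M) * z j0) := by
  have h0 := z_ne hx hz hj0
  have hs : ((sg (pat W z i j0) j : ℤ) : M) ≠ 0 := by exact_mod_cast sg_ne _ _
  refine ⟨mul_ne_zero hs h0, ?_⟩
  unfold sg
  rcases Pool.Agent.W623.SecG.sign_choice (ratio_sq hW he hd hx hz hxW hj hj0) with h | h
  · have h1 : j ∉ pat W z i j0 := by
      rw [mem_pat]
      rintro ⟨-, h2⟩
      have h3 := non_sub h2 h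
      have h4 := int_unit (W := W) hW (show (2 : ℤ) ≠ 0 by norm_num)
      apply h4.not_nonunit
      have h5 : ((2 : ℤ) : M) = z j / z j0 + 1 - (z j / z j0 - 1) := by push_cast; ring
      rw [h5]
      exact h3
    rw [if_neg h1, Int.cast_one, one_mul]
    exact h
  · have h1 : j ∈ pat W z i j0 := by
      rw [mem_pat]
      refine ⟨hj, ?_⟩
      have h2 : z j / z j0 + 1 = -(-(z j / z j0) - 1) := by ring
      rw [h2]
      exact non_neg h
    rw [if_pos h1]
    have h2 : z j / (((-1 : ℤ) : M) * z j0) - 1 = -(z j / z j0) - 1 := by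
      push_cast
      rw [neg_one_mul, div_neg]
    rw [h2]
    exact h

include hW in
/-- the leading term of a sum -/
theorem lt_add {a b c : M} (ha : Lt W a c) (hb : Lt W b c) : Lt W (a + b) (2 * c) := by
  have hc := ha.1
  have h2 : (2 : M) ≠ 0 := by norm_num
  refine ⟨mul_ne_zero h2 hc, ?_⟩
  have h1 : (a + b) / (2 * c) - 1 = (((2 : ℤ) : M))⁻¹ * ((a / c - 1) + (b / c - 1)) := by
    push_cast
    field_simp
    ring
  rw [h1]
  exact non_mul (int_unit hW (show (2 : ℤ) ≠ 0 by norm_num)).2.2 (non_add ha.2 hb.2)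

theorem lt_neg {a b : M} (h : Lt W a b) : Lt W (-a) (-b) := by
  refine ⟨neg_ne_zero.2 h.1, ?_⟩
  rw [neg_div_neg_eq]
  exact h.2

/-- the square factor -/
noncomputable def tt (e : K → ℤ) (d : ℤ) (i : K) (L : Finset K) (u : M) (p : K × K) : M :=
  if Nsep L p then (2 * u * ((d : M) * (Gi e i : M) * (((e i : M) - (e p.1 : M)) *
    ((e i : M) - (e p.2 : M)))))⁻¹ else 1

include hW he hd hx hz hxW in
theorem lead_pair {j0 : K} (hj0 : j0 ≠ i) (p : K × K) (h1 : p.1 ≠ p.2) (h2 : p.1 ≠ i)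
    (h3 : p.2 ≠ i) : Lt W (z p.1 - z p.2)
      (((qc e i (pat W z i j0) p * (if Nsep (pat W z i j0) p then d else 1) : ℤ) : M) *
        (2 * z j0) * (tt e d i (pat W z i j0) (z j0) p) ^ 2) := by
  set L := pat W z i j0 with hL
  have hd' : (d : M) ≠ 0 := by exact_mod_cast hd
  have hG : (Gi e i : M) ≠ 0 := by exact_mod_cast Gi_ne e he i
  have hi1 := sub_e_ne (M := M) he (Ne.symm h2)
  have hi2 := sub_e_ne (M := M) he (Ne.symm h3)
  have h0 := z_ne hx hz hj0
  have hl1 := lead_z hW he hd hx hz hxW hj0 h2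
  have hl2 := lead_z hW he hd hx hz hxW hj0 h3
  rw [← hL] at hl1 hl2
  have hsg : ((sg L p.1 : ℤ) : M) * ((sg L p.1 : ℤ) : M) = 1 := by
    rw [← Int.cast_mul, sg_sq, Int.cast_one]
  have hsg0 : ((sg L p.1 : ℤ) : M) ≠ 0 := by exact_mod_cast sg_ne _ _
  by_cases hn : Nsep L p
  · have e1 : sg L p.2 = sg L p.1 := by
      unfold sg
      by_cases h : p.1 ∈ L
      · rw [if_pos h, if_pos (hn.1 h)]
      · rw [if_neg h, if_neg (fun h' => h (hn.2 h'))]
    rw [e1] at hl2
    have h4 := lt_add hW hl1 hl2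
    have h5 := z_diff he hd hx hz h2 h3
    have h6 := z_add_ne he hd hx hz h2 h3 h1
    set D : M := ((e p.1 : M) - (e p.2 : M)) / ((d : M) * (Gi e i : M) *
      (((e i : M) - (e p.1 : M)) * ((e i : M) - (e p.2 : M)))) with hD
    have hD0 : D ≠ 0 := div_ne_zero (sub_e_ne (M := M) he h1)
      (mul_ne_zero (mul_ne_zero hd' hG) (mul_ne_zero hi1 hi2))
    have h7 : z p.1 - z p.2 = D * (z p.1 + z p.2)⁻¹ := by
      rw [hD, ← h5]
      field_simp
    rw [h7]
    refine ((Lt.refl hD0).mul h4.inv).congr ?_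
    unfold qc tt
    rw [if_pos hn, if_pos hn, if_pos hn, hD]
    push_cast
    have h8 : (2 * (((sg L p.1 : ℤ) : M) * z j0))⁻¹ = ((sg L p.1 : ℤ) : M) * (2 * z j0)⁻¹ := by
      rw [inv_eq_iff_eq_inv, mul_inv, inv_inv]
      have h9 : (((sg L p.1 : ℤ) : M))⁻¹ = ((sg L p.1 : ℤ) : M) :=
        inv_eq_of_mul_eq_one_right hsg
      rw [h9]
      ring
    rw [h8]
    field_simp
  · have e1 : sg L p.2 = -sg L p.1 := by
      unfold sg
      unfold Nsep at hn
      by_cases h : p.1 ∈ L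
      · rw [if_pos h, if_neg (fun h' => hn ⟨fun _ => h', fun _ => h⟩)]
        norm_num
      · rw [if_neg h, if_pos (by
          by_contra h'
          exact hn ⟨fun a => absurd a h, fun a => absurd a h'⟩)]
    rw [e1] at hl2
    have h4 := lt_neg hl2
    have h5 : -(((-sg L p.1 : ℤ) : M) * z j0) = ((sg L p.1 : ℤ) : M) * z j0 := by
      push_cast
      ring
    rw [h5] at h4
    have h6 := lt_add hW hl1 h4
    rw [← sub_eq_add_neg] at h6
    refine h6.congr ?_
    unfold qc tt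
    rw [if_neg hn, if_neg hn, if_neg hn]
    push_cast
    ring

/-- the function `f_w` -/
def ff (z : K → M) (w : Finset (K × K)) : M := ∏ p ∈ w, (z p.1 - z p.2)

/-- the square factor of `f_w` -/
noncomputable def tw (e : K → ℤ) (d : ℤ) (i : K) (L : Finset K) (u : M)
    (w : Finset (K × K)) : M := (2 * u) ^ (w.card / 2) * ∏ p ∈ w, tt e d i L u p

omit [CharZero M] in
theorem tw_fix (g : M →+* M) {e : K → ℤ} {d : ℤ} {i : K} {L : Finset K} {u : M}
    (hu : g u = u) (w : Finset (K × K)) : g (tw e d i L u w) = tw e d i L u w := by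
  unfold tw
  rw [map_mul, map_prod, map_pow, map_mul, hu, map_ofNat]
  congr 1
  refine Finset.prod_congr rfl fun p _ => ?_
  unfold tt
  split_ifs
  · simp only [map_inv₀, map_mul, map_sub, map_intCast, hu, map_ofNat]
  · exact map_one g

include he hd in
theorem tw_ne {L : Finset K} {u : M} (hu : u ≠ 0) (w : Finset (K × K)) (hw : Adm i w) :
    tw e d i L u w ≠ 0 := by
  have hd' : (d : M) ≠ 0 := by exact_mod_cast hd
  have hG : (Gi e i : M) ≠ 0 := by exact_mod_cast Gi_ne e he i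
  have h2 : (2 : M) ≠ 0 := by norm_num
  unfold tw
  refine mul_ne_zero (pow_ne_zero _ (mul_ne_zero h2 hu)) (Finset.prod_ne_zero_iff.2 fun p hp => ?_)
  unfold tt
  split_ifs
  · exact inv_ne_zero (mul_ne_zero (mul_ne_zero h2 hu) (mul_ne_zero (mul_ne_zero hd' hG)
      (mul_ne_zero (sub_e_ne (M := M) he (hw p hp).2.1.symm)
        (sub_e_ne (M := M) he (hw p hp).2.2.symm))))
  · exact one_ne_zero

include hW he hd hx hz hxW in
theorem lead_w {j0 : K} (hj0 : j0 ≠ i) (w : Finset (K × K)) (hw : Adm i w) (hev : Even w.card) :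
    Lt W (ff z w) (((cc e i (pat W z i j0) w * d ^ nn (pat W z i j0) w : ℤ) : M) *
      (tw e d i (pat W z i j0) (z j0) w) ^ 2) := by
  have h1 := Lt.prod w (fun p => z p.1 - z p.2) _
    (fun p hp => lead_pair hW he hd hx hz hxW hj0 p (hw p hp).1 (hw p hp).2.1 (hw p hp).2.2)
  refine h1.congr ?_
  rw [Finset.prod_mul_distrib, Finset.prod_mul_distrib, ← Int.cast_prod, cc_d,
    Finset.prod_const, Finset.prod_pow]
  unfold tw
  obtain ⟨r, hr⟩ := hev
  have h3 : (2 * z j0) ^ w.card = ((2 * z j0) ^ (w.card / 2)) ^ 2 := by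
    rw [← pow_mul]
    congr 1
    omega
  rw [h3]
  ring

end lead

section residue

variable {κ M : Type} [Field κ] [IsAlgClosed κ] [Field M] [CharZero M]
  {W : ValuationSubring M} (ι : κ →+* M) (hι : ∀ c, ι c ∈ W)

include hι in
theorem iota_unit {c : κ} (hc : c ≠ 0) : IsU W (ι c) := by
  refine ⟨(_root_.map_ne_zero ι).2 hc, hι c, ?_⟩
  rw [← map_inv₀]
  exact hι _

include hι in
theorem iota_zero {c : κ} (hc : ι c ∈ W.nonunits) : c = 0 := by
  by_contra h
  exact (iota_unit ι hι h).not_nonunit hc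

include hι in
/-- the residue of a square root -/
theorem res_root (hW : ∀ c : ℚ, (c : M) ∈ W) (l N : ℤ) (hl : l ≠ 0) (hN : N ≠ 0) (ρ : M)
    (h : Lt W ((l : M) * ρ ^ 2) (N : M)) :
    ∃ μ : κ, (l : κ) * μ ^ 2 = (N : κ) ∧ ρ - ι μ ∈ W.nonunits := by
  haveI hch : CharZero κ := by
    refine ⟨fun a b hab => ?_⟩
    have h1 := congrArg ι hab
    rw [map_natCast, map_natCast] at h1
    exact_mod_cast h1
  have hlκ : (l : κ) ≠ 0 := by exact_mod_cast hl
  have hlM : (l : M) ≠ 0 := by exact_mod_cast hl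
  have hNM : (N : M) ≠ 0 := by exact_mod_cast hN
  obtain ⟨μ, hμ⟩ := IsAlgClosed.exists_pow_nat_eq ((N : κ) / (l : κ)) (n := 2) (by norm_num)
  have hμ' : (l : κ) * μ ^ 2 = (N : κ) := by rw [hμ, mul_div_cancel₀ _ hlκ]
  have hμM : ι μ ^ 2 = (N : M) / (l : M) := by
    rw [← map_pow, hμ, map_div₀, map_intCast, map_intCast]
  have h1 : (ρ - ι μ) * (ρ + ι μ) ∈ W.nonunits := by
    have h2 : (ρ - ι μ) * (ρ + ι μ) = ((N : M) * ((l : M))⁻¹) * ((l : M) * ρ ^ 2 / (N : M) - 1) := by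
      have h3 : (ρ - ι μ) * (ρ + ι μ) = ρ ^ 2 - ι μ ^ 2 := by ring
      rw [h3, hμM]
      field_simp
    rw [h2]
    exact non_mul (mul_mem (int_unit hW hN).2.1 (int_unit hW hl).2.2) h.2
  have hρ2 : ρ ^ 2 ∈ W := by
    have h2 : ρ ^ 2 = (ρ - ι μ) * (ρ + ι μ) + ι (μ ^ 2) := by rw [map_pow]; ring
    rw [h2]
    exact add_mem (non_mem h1) (hι _)
  have hρ : ρ ∈ W := by
    have h3 : IsIntegral W ρ := by
      refine IsIntegral.of_pow (n := 2) (by norm_num) ?_
      exact isIntegral_algebraMap (x := (⟨ρ ^ 2, hρ2⟩ : W))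
    obtain ⟨a, ha⟩ := IsIntegrallyClosed.isIntegral_iff.1 h3
    rw [← ha]
    exact a.2
  by_cases h2 : ρ - ι μ ∈ W.nonunits
  · exact ⟨μ, hμ', h2⟩
  · refine ⟨-μ, by rw [neg_sq]; exact hμ', ?_⟩
    rw [map_neg, sub_neg_eq_add]
    exact non_of_isU_mul (isU_of_not_nonunit (sub_mem hρ (hι _)) h2) h1

theorem non_stable (g : M →+* M) (hg : ∀ z, g z ∈ W ↔ z ∈ W) {z : M} (hz : z ∈ W.nonunits) :
    g z ∈ W.nonunits := by
  rw [nonunits_iff] at hz ⊢
  refine ⟨(hg z).2 hz.1, ?_⟩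
  rcases hz.2 with h | h
  · exact Or.inl (by rw [h, map_zero])
  · refine Or.inr ?_
    rw [← map_inv₀, hg]
    exact h

include hι in
/-- the residue of a fixed element is fixed -/
theorem res_fixed (g : M →+* M) (hg : ∀ z ∈ W.nonunits, g z ∈ W.nonunits) (τ : κ → κ)
    (hτ : ∀ c, g (ι c) = ι (τ c)) (ρ : M) (hρ : g ρ = ρ) (μ : κ) (h : ρ - ι μ ∈ W.nonunits) :
    τ μ = μ := by
  have h1 := hg _ h
  rw [map_sub, hρ, hτ] at h1
  have h2 := non_sub h h1
  have h3 : ρ - ι μ - (ρ - ι (τ μ)) = ι (τ μ - μ) := by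
    rw [map_sub]
    ring
  rw [h3] at h2
  exact sub_eq_zero.1 (iota_zero ι hι h2)

include hι in
/-- an element with fixed nonzero residue which is fixed up to sign is fixed -/
theorem fixed_of_res (g : M →+* M) (hg : ∀ z ∈ W.nonunits, g z ∈ W.nonunits) (τ : κ → κ)
    (hτ : ∀ c, g (ι c) = ι (τ c)) (ρ : M) (hρ : g ρ ^ 2 = ρ ^ 2) (μ : κ) (hμ0 : μ ≠ 0)
    (hμ : τ μ = μ) (h : ρ - ι μ ∈ W.nonunits) : g ρ = ρ := by
  rcases sq_eq_sq_iff_eq_or_eq_neg.1 hρ with h1 | h1
  · exact h1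
  · exfalso
    have h2 := hg _ h
    rw [map_sub, h1, hτ, hμ] at h2
    have h3 := non_add h h2
    have h4 : ρ - ι μ + (-ρ - ι μ) = ι (-2 * μ) := by
      rw [map_mul, map_neg, map_ofNat]
      ring
    rw [h4] at h3
    have h5 := iota_zero ι hι h3
    haveI hch : CharZero κ := by
      refine ⟨fun a b hab => ?_⟩
      have h1 := congrArg ι hab
      rw [map_natCast, map_natCast] at h1
      exact_mod_cast h1
    rcases mul_eq_zero.1 h5 with h6 | h6
    · norm_num at h6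
    · exact hμ0 h6

end residue

end Pool.Agent.Run7.h369.D3
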