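import Pool.Agent.Run7.h369.D3.Typs

/-! # The result for one `d` and one branch point -/

set_option autoImplicit false
set_option linter.all false

open Polynomial

namespace Pool.Agent.Run7.h369.D3

open Finset Pool.Agent.Y157.PS Pool.Agent.Y157.PC

section lvl

variable {k F N : Type} [Field k] [Field F] [Field N] [Algebra k F]

/-- `z` is algebraic over `k` -/
def AlgOver' {k M : Type} [Field k] [Field M] (i : k →+* M) (z : M) : Prop :=
  ∃ p : k[X], p ≠ 0 ∧ p.eval₂ i z = 0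

/-- the square roots of `(x - e_l) / ((x - e_i) (e_i - e_l))` -/
def Rts {K : Type} (j : F →+* N) (e : K → k) (x : F) (i l : K) : Set N :=
  {z | z ^ 2 * j ((x - algebraMap k F (e i)) * algebraMap k F (e i - e l)) =
    j (x - algebraMap k F (e l))}

/-- the third level -/
def Lvl₃ {K : Type} (j : F →+* N) (e : K → k) (x : F) (i : K) : Subfield N :=
  Subfield.closure (Set.range j ∪ {z | AlgOver' (j.comp (algebraMap k F)) z} ∪
    {z | ∃ l, l ≠ i ∧ z ∈ Rts j e x i l} ∪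
    {w | ∃ l₁ l₂ l₃ l₄, l₁ ≠ i ∧ l₂ ≠ i ∧ l₃ ≠ i ∧ l₄ ≠ i ∧ l₁ ≠ l₂ ∧ l₃ ≠ l₄ ∧
      ∃ z₁ ∈ Rts j e x i l₁, ∃ z₂ ∈ Rts j e x i l₂, ∃ z₃ ∈ Rts j e x i l₃,
        ∃ z₄ ∈ Rts j e x i l₄, w ^ 2 = (z₁ - z₂) * (z₃ - z₄)})

end lvl

theorem sq_ind (l c d : ℤ) (hd : Squarefree d) (hl : Squarefree l) (p : ℕ) (hp : p.Prime)
    (hpd : (p : ℤ) ∣ d) (hc : ¬ (p : ℤ) ∣ c) (b : Bool)
    (h : IsSquare (l * c * (if b = true then d else 1))) : b = true ↔ (p : ℤ) ∣ l := by
  have hpz := Nat.prime_iff_prime_int.mp hp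
  have hp0 : (p : ℤ) ≠ 0 := by exact_mod_cast hp.ne_zero
  -- a square divisible by `p` is divisible by `p ^ 2`
  have key : ∀ n : ℤ, IsSquare n → (p : ℤ) ∣ n → (p : ℤ) * p ∣ n := by
    rintro n ⟨r, rfl⟩ h1
    have h2 : (p : ℤ) ∣ r := by
      rcases hpz.dvd_or_dvd h1 with h | h <;> exact h
    exact mul_dvd_mul h2 h2
  obtain ⟨d', hd'⟩ := hpd
  have hpd' : ¬ (p : ℤ) ∣ d' := by
    rintro ⟨b, hb⟩
    exact hpz.not_unit (hd _ ⟨b, by rw [hd', hb]; ring⟩)
  cases b with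
  | true =>
    rw [if_pos rfl] at h
    refine ⟨fun _ => ?_, fun _ => rfl⟩
    by_contra hpl
    obtain ⟨m, hm⟩ := key _ h (Dvd.dvd.mul_left ⟨d', hd'⟩ _)
    rw [hd'] at hm
    have h2 : l * c * d' = p * m := by
      apply mul_left_cancel₀ hp0
      linear_combination hm
    rcases hpz.dvd_or_dvd ⟨m, h2⟩ with h | h
    · rcases hpz.dvd_or_dvd h with h | h
      · exact hpl h
      · exact hc h
    · exact hpd' h
  | false =>
    rw [if_neg (by decide), mul_one] at h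
    refine ⟨fun h => absurd h (by decide), fun hpl => ?_⟩
    exfalso
    obtain ⟨m, hm⟩ := key _ h (Dvd.dvd.mul_right hpl _)
    obtain ⟨l', hl'⟩ := hpl
    have hpl' : ¬ (p : ℤ) ∣ l' := by
      rintro ⟨b, hb⟩
      exact hpz.not_unit (hl _ ⟨b, by rw [hl', hb]; ring⟩)
    rw [hl'] at hm
    have h2 : l' * c = p * m := by
      apply mul_left_cancel₀ hp0
      linear_combination hm
    rcases hpz.dvd_or_dvd ⟨m, h2⟩ with h | h
    · exact hpl' h
    · exact hc h

/-- all primes greater than `z0` are good -/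
def GoodZ {K : Type} (e : K → ℤ) (z0 : ℕ) : Prop :=
  ∀ p : ℕ, p.Prime → z0 < p → ¬ (p : ℤ) ∣ 2 ∧ ∀ i j, i ≠ j → ¬ (p : ℤ) ∣ e i - e j

theorem not_dvd_cc {K : Type} [Fintype K] [DecidableEq K] {e : K → ℤ} {p : ℕ} (hp : p.Prime)
    (hpe : ∀ i j, i ≠ j → ¬ (p : ℤ) ∣ e i - e j) (i : K) (L : Finset K) (w : Finset (K × K))
    (hw : Adm i w) : ¬ (p : ℤ) ∣ cc e i L w := by
  have hpz := Nat.prime_iff_prime_int.mp hp
  intro h
  obtain ⟨q, hq, h⟩ := hpz.exists_mem_finset_dvd h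
  unfold qc at h
  rcases hpz.dvd_or_dvd h with h | h
  · have h1 : (p : ℤ) ∣ 1 := by
      rw [← sg_sq L q.1]
      exact Dvd.dvd.mul_right h _
    exact hpz.not_unit (isUnit_of_dvd_one h1)
  · split_ifs at h
    · rcases hpz.dvd_or_dvd h with h | h
      · exact not_dvd_Gi hp hpe h
      · rcases hpz.dvd_or_dvd h with h | h
        · exact hpe _ _ (hw q hq).1 h
        · rcases hpz.dvd_or_dvd h with h | h
          · exact hpe _ _ (hw q hq).2.1.symm h
          · exact hpe _ _ (hw q hq).2.2.symm h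
    · exact hpz.not_unit (isUnit_of_dvd_one h)

section one

variable {K : Type} [Fintype K] [DecidableEq K] (e : K → ℤ) (he : Function.Injective e)
  (hev : Even (Fintype.card K)) (h4 : 4 ≤ Fintype.card K) (d : ℤ) (hd : Squarefree d)
  {F Ω : Type} [Field F] [Field Ω] [Algebra ℚ F] [Algebra F Ω] [Algebra ℚ Ω]
  [IsScalarTower ℚ F Ω] [IsAlgClosed Ω] [Algebra.IsAlgebraic F Ω] (x y : F)
  (hx : Transcendental ℚ x)
  (hxy : algebraMap ℚ F (d : ℚ) * y ^ 2 = ∏ i, (x - algebraMap ℚ F (e i : ℚ)))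
  (hF : IntermediateField.adjoin ℚ {x, y} = (⊤ : IntermediateField ℚ F))
  (i j0 : K) (hj0 : j0 ≠ i) (N : IntermediateField F Ω) (hN : Normal F N)
  (hMN : geomPro 2 ℚ F Ω ≤ N)

include hx in
theorem x_ne_int {M : Type} [Field M] (g : F →+* M) (n : ℤ) : g x ≠ (n : M) := by
  intro h
  apply hx
  have h1 : x = algebraMap ℚ F (n : ℚ) := by
    apply g.injective
    rw [h, map_intCast, map_intCast]
  rw [h1]
  exact isAlgebraic_algebraMap _

include hxy in
theorem eqn_map {M : Type} [Field M] (g : F →+* M) :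
    ((d : ℤ) : M) * (g y) ^ 2 = ∏ l, (g x - ((e l : ℤ) : M)) := by
  have h1 := congrArg g hxy
  rw [map_mul, map_pow, map_prod, map_intCast, map_intCast] at h1
  rw [h1]
  refine Finset.prod_congr rfl fun l _ => ?_
  rw [map_sub, map_intCast, map_intCast]

include hev he hd hx hxy in
/-- the `z j` are fixed -/
theorem sec_fix_z (z : K → N) (hz : ZSys e d i (algebraMap F N x) z) (s : N ≃ₐ[F] N)
    (hAt : ∀ l l', l ≠ i → l' ≠ i → ∃ γ : N, s γ = γ ∧
      (γ : Ω) ^ 2 = algebraMap F Ω ((x - algebraMap ℚ F (e l : ℚ)) *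
        (x - algebraMap ℚ F (e l' : ℚ)) *
        algebraMap ℚ F (((e i : ℚ) - e l) * ((e i : ℚ) - e l')))) {j : K} (hj : j ≠ i) :
    s (z j) = z j := by
  haveI : CharZero F := algebraRat.charZero F
  haveI : CharZero N := charZero_of_injective_algebraMap (algebraMap F N).injective
  refine fix_of_ratio he hd.ne_zero (x_ne_int x hx (algebraMap F N)) hz
    (eqn_map e d x y hxy (algebraMap F N)) hev (s : N →+* N) (s.commutes x) (s.commutes y)
    (fun j k hj hk => ?_) hj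
  obtain ⟨γ, hγ, hγ2⟩ := hAt j k hj hk
  refine ratio_of_gam he hd.ne_zero (x_ne_int x hx (algebraMap F N)) hz (s : N →+* N)
    (s.commutes x) hj hk γ hγ ?_
  apply (algebraMap N Ω).injective
  rw [map_pow]
  change (γ : Ω) ^ 2 = _
  rw [hγ2]
  simp only [map_mul, map_sub, map_intCast]
  rfl

end one

end Pool.Agent.Run7.h369.D3
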