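import Pool.Agent.Run7.h369.D3.PerD

/-! # Kummer data of a section -/

set_option autoImplicit false
set_option linter.all false

open Polynomial

namespace Pool.Agent.Run7.h369.D3

open Finset Pool.Agent.Y157.PS Pool.Agent.Y157.PC

section one

variable {K : Type} [Fintype K] [DecidableEq K] (e : K → ℤ) (he : Function.Injective e)
  (hev : Even (Fintype.card K)) (h4 : 4 ≤ Fintype.card K) (d : ℤ) (hd : Squarefree d)
  {F Ω : Type} [Field F] [Field Ω] [Algebra ℚ F] [Algebra F Ω] [Algebra ℚ Ω]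
  [IsScalarTower ℚ F Ω] [IsAlgClosed Ω] [Algebra.IsAlgebraic F Ω] (x y : F)
  (hx : Transcendental ℚ x)
  (hxy : algebraMap ℚ F (d : ℚ) * y ^ 2 = ∏ i, (x - algebraMap ℚ F (e i : ℚ)))
  (hF : IntermediateField.adjoin ℚ {x, y} = (⊤ : IntermediateField ℚ F))
  (i j0 : K) (hj0 : j0 ≠ i)

/-- the constants in the covering field -/
noncomputable def iot (F Ω : Type) [Field F] [Field Ω] [Algebra ℚ F] [Algebra F Ω] [Algebra ℚ Ω]
    [IsScalarTower ℚ F Ω] : algebraicClosure ℚ Ω →+* geomPro 2 ℚ F Ω :=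
  (algebraMap (algebraicClosure ℚ Ω) Ω).codRestrict (geomPro 2 ℚ F Ω).toSubfield
    (fun c => const_geomPro 2 ℚ c)

theorem iot_coe (c : algebraicClosure ℚ Ω) : ((iot F Ω c : geomPro 2 ℚ F Ω) : Ω) = (c : Ω) := rfl

variable (T : (algebraicClosure ℚ Ω ≃ₐ[ℚ] algebraicClosure ℚ Ω) →*
    (geomPro 2 ℚ F Ω ≃ₐ[F] geomPro 2 ℚ F Ω)) (hT : Continuous T)
  (hTc : ∀ σ (c : algebraicClosure ℚ Ω) (z : geomPro 2 ℚ F Ω), (z : Ω) = (c : Ω) →
      (T σ z : Ω) = (σ c : Ω))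
  (z : K → geomPro 2 ℚ F Ω) (hz : ZSys e d i (algebraMap F (geomPro 2 ℚ F Ω) x) z)
  (hTz : ∀ σ j, j ≠ i → T σ (z j) = z j)

include he hev h4 hd hx hxy hF hT hTc hz hTz in
theorem kdata (hroot : ∀ w : Finset (K × K), Adm i w → Even w.card →
    ∃ h : geomPro 2 ℚ F Ω, h ^ 2 = ff z w) (w : Rel i) :
    ∃ (l : ℤ) (v : geomPro 2 ℚ F Ω), Squarefree l ∧ (∀ σ, T σ v = v) ∧
      (l : geomPro 2 ℚ F Ω) * v ^ 2 = ff z w.1 ∧
      ∀ p : ℕ, p.Prime → ¬ (p : ℤ) ∣ 2 → (∀ i j, i ≠ j → ¬ (p : ℤ) ∣ e i - e j) →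
        ¬ (p : ℤ) ∣ d → ¬ (p : ℤ) ∣ l := by
  haveI : CharZero F := algebraRat.charZero F
  haveI : CharZero (geomPro 2 ℚ F Ω) :=
    charZero_of_injective_algebraMap (algebraMap F (geomPro 2 ℚ F Ω)).injective
  haveI hac : IsAlgClosure ℚ (algebraicClosure ℚ Ω) := Pool.Agent.Y968.PC.algClosQ Ω
  have hxM := x_ne_int x hx (algebraMap F (geomPro 2 ℚ F Ω))
  have hTi : ∀ σ c, T σ (iot F Ω c) = iot F Ω (σ c) := by
    intro σ c
    apply Subtype.ext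
    rw [hTc σ c (iot F Ω c) rfl]
    rfl
  set S : (algebraicClosure ℚ Ω ≃ₐ[ℚ] algebraicClosure ℚ Ω) →* RingAut (geomPro 2 ℚ F Ω) :=
    (Pool.Agent.W620.SC.toRingAutHom F (geomPro 2 ℚ F Ω)).comp T with hS
  have hSa : ∀ σ z, S σ z = T σ z := fun σ z => rfl
  obtain ⟨h, hh⟩ := hroot w.1 w.2.1 w.2.2
  have hf0 : ff z w.1 ≠ 0 := by
    unfold ff
    exact Finset.prod_ne_zero_iff.2 fun p hp => z_sub_ne he hd.ne_zero hxM hz (w.2.1 p hp).2.1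
      (w.2.1 p hp).2.2 (w.2.1 p hp).1
  have hff : ∀ σ, S σ (ff z w.1) = ff z w.1 := by
    intro σ
    rw [hSa]
    unfold ff
    rw [map_prod]
    refine Finset.prod_congr rfl fun p hp => ?_
    rw [map_sub, hTz σ _ (w.2.1 p hp).2.1, hTz σ _ (w.2.1 p hp).2.2]
  obtain ⟨l, β, hl, h1, h2, hβ, h3⟩ := kum S (iot F Ω) (fun σ c => hTi σ c) (ff z w.1) h hf0 hff hh
    (cont_fix T hT h)
  refine ⟨l, iot F Ω β * h, hl, fun σ => h1 σ, h2, ?_⟩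
  intro p hp hp2 hpe hpd
  obtain ⟨V, hV⟩ := ex_V (κ := algebraicClosure ℚ Ω) p hp
  obtain ⟨O, hO1, hO2⟩ := a_gred K e he hev h4 d p hp hp2 hpe hpd F Ω x y hx hxy hF T hT
    (fun σ c z hz => hTc σ c z hz) V hV
  have hU : ∀ n : ℤ, ¬ (p : ℤ) ∣ n → IsU O (n : geomPro 2 ℚ F Ω) := by
    intro n hn
    have h5 := hO1.2 (C n) ⟨0, by rw [coeff_C_zero]; exact hn⟩
    rw [aeval_C] at h5
    simpa using h5
  have hX : ∀ n : ℤ, IsU O (algebraMap F (geomPro 2 ℚ F Ω) x - (n : geomPro 2 ℚ F Ω)) := by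
    intro n
    have h5 := hO1.2 (X - C n) ⟨1, by
      rw [coeff_sub, coeff_X_one, coeff_C_succ, sub_zero]
      exact fun h => (Nat.prime_iff_prime_int.mp hp).not_unit (isUnit_of_dvd_one h)⟩
    rw [map_sub, aeval_X, aeval_C] at h5
    simpa using h5
  have hffU := ff_isU he hd.ne_zero hxM hz hp hpd hpe hU hX w.1 w.2.1
  have hhU : IsU O h := isU_of_pow (n := 2) (by norm_num) (by rw [hh]; exact hffU)
  exact gd_not_dvd p hp hp2 V hV S (iot F Ω) (fun σ c => hTi σ c) O hU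
    (fun σ hσ z hz => hO2 σ hσ z hz) h hhU l hl β hβ h1 h3

/-- the place contains the constants -/
theorem iot_mem (W : ValuationSubring (geomPro 2 ℚ F Ω))
    (hW : ∀ c : ℚ, algebraMap F (geomPro 2 ℚ F Ω) (algebraMap ℚ F c) ∈ W)
    (c : algebraicClosure ℚ Ω) : iot F Ω c ∈ W := by
  obtain ⟨p, hp, hpc⟩ := c.2
  refine alg_mem ((algebraMap F (geomPro 2 ℚ F Ω)).comp (algebraMap ℚ F)) W hW _ p hp ?_
  apply (algebraMap (geomPro 2 ℚ F Ω) Ω).injective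
  rw [hom_eval₂, map_zero]
  have h6 : (algebraMap (geomPro 2 ℚ F Ω) Ω).comp
      ((algebraMap F (geomPro 2 ℚ F Ω)).comp (algebraMap ℚ F)) = algebraMap ℚ Ω := by
    ext a
    exact (IsScalarTower.algebraMap_apply ℚ F Ω a).symm
  have h7 : algebraMap (geomPro 2 ℚ F Ω) Ω (iot F Ω c) = (c : Ω) := rfl
  rw [h6, h7]
  exact hpc

include he hd hx hTc hz hTz in
/-- the local conditions at the primes dividing `d` -/
theorem klocal (hj0 : j0 ≠ i) (w : Rel i) (l : ℤ) (hl : Squarefree l) (v : geomPro 2 ℚ F Ω)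
    (hv : ∀ σ, T σ v = v) (hlv : (l : geomPro 2 ℚ F Ω) * v ^ 2 = ff z w.1)
    (p : ℕ) (hp : p.Prime) (hp2 : ¬ (p : ℤ) ∣ 2) (hpe : ∀ i j, i ≠ j → ¬ (p : ℤ) ∣ e i - e j)
    (hpd : (p : ℤ) ∣ d) (V : ValuationSubring (algebraicClosure ℚ Ω))
    (hV : (p : algebraicClosure ℚ Ω) ∈ V.nonunits) (W : ValuationSubring (geomPro 2 ℚ F Ω))
    (hW : ∀ c : ℚ, algebraMap F (geomPro 2 ℚ F Ω) (algebraMap ℚ F c) ∈ W)
    (hxW : algebraMap F (geomPro 2 ℚ F Ω) (x - algebraMap ℚ F (e i : ℚ)) ∈ W.nonunits)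
    (hst : ∀ σ : algebraicClosure ℚ Ω ≃ₐ[ℚ] algebraicClosure ℚ Ω, Dec V σ →
      ∀ z, T σ z ∈ W ↔ z ∈ W) :
    (Odd (nn (pat W z i j0) w.1) → (p : ℤ) ∣ l ∧
      jacobiSym (l / p * (d / p) * cc e i (pat W z i j0) w.1) p = 1) ∧
    (Even (nn (pat W z i j0) w.1) → ¬ (p : ℤ) ∣ l ∧
      jacobiSym (l * cc e i (pat W z i j0) w.1) p = 1) := by
  haveI : CharZero F := algebraRat.charZero F
  haveI : CharZero (geomPro 2 ℚ F Ω) :=
    charZero_of_injective_algebraMap (algebraMap F (geomPro 2 ℚ F Ω)).injective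
  haveI hac : IsAlgClosure ℚ (algebraicClosure ℚ Ω) := Pool.Agent.Y968.PC.algClosQ Ω
  haveI hkb : IsAlgClosed (algebraicClosure ℚ Ω) := hac.1
  have hxM := x_ne_int x hx (algebraMap F (geomPro 2 ℚ F Ω))
  have hW' : ∀ c : ℚ, (c : geomPro 2 ℚ F Ω) ∈ W := by
    intro c
    have h1 := hW c
    rwa [eq_ratCast (algebraMap ℚ F) c, map_ratCast] at h1
  have hxW' : algebraMap F (geomPro 2 ℚ F Ω) x - ((e i : ℤ) : geomPro 2 ℚ F Ω) ∈ W.nonunits := by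
    rw [map_sub, map_intCast, map_intCast] at hxW
    exact hxW
  have hι : ∀ c, iot F Ω c ∈ W := iot_mem W hW
  have hTi : ∀ σ c, T σ (iot F Ω c) = iot F Ω (σ c) := by
    intro σ c
    apply Subtype.ext
    rw [hTc σ c (iot F Ω c) rfl]
    rfl
  set L := pat W z i j0 with hL
  have hc0 := cc_ne e he i L w.1 w.2.1
  have hN0 : cc e i L w.1 * d ^ nn L w.1 ≠ 0 := mul_ne_zero hc0 (pow_ne_zero _ hd.ne_zero)
  set t := tw e d i L (z j0) w.1 with ht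
  have ht0 : t ≠ 0 := tw_ne he hd.ne_zero (z_ne hxM hz hj0) w.1 w.2.1
  have hlead := lead_w hW' he hd.ne_zero hxM hz hxW' hj0 w.1 w.2.1 w.2.2
  rw [← hL, ← ht, ← hlv] at hlead
  have hρ : Lt W ((l : geomPro 2 ℚ F Ω) * (v / t) ^ 2)
      ((cc e i L w.1 * d ^ nn L w.1 : ℤ) : geomPro 2 ℚ F Ω) := by
    refine ⟨by exact_mod_cast hN0, ?_⟩
    have h1 := hlead.2
    have hNΩ : ((cc e i L w.1 * d ^ nn L w.1 : ℤ) : geomPro 2 ℚ F Ω) ≠ 0 := by exact_mod_cast hN0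
    have h2 : (l : geomPro 2 ℚ F Ω) * v ^ 2 /
        (((cc e i L w.1 * d ^ nn L w.1 : ℤ) : geomPro 2 ℚ F Ω) * t ^ 2) =
        (l : geomPro 2 ℚ F Ω) * (v / t) ^ 2 /
        ((cc e i L w.1 * d ^ nn L w.1 : ℤ) : geomPro 2 ℚ F Ω) := by
      field_simp
    rw [h2] at h1
    exact h1
  obtain ⟨μ, hμ, hres⟩ := res_root (iot F Ω) hι hW' l _ hl.ne_zero hN0 (v / t) hρ
  refine lc_of_root p hp hp2 V hV d l (cc e i L w.1) hd hpd hl
    (not_dvd_cc hp hpe i L w.1 w.2.1) (nn L w.1) μ hμ fun σ hσ => ?_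
  refine res_fixed (iot F Ω) hι (T σ : geomPro 2 ℚ F Ω →+* geomPro 2 ℚ F Ω)
    (fun a ha => non_stable (T σ : geomPro 2 ℚ F Ω →+* geomPro 2 ℚ F Ω) (hst σ hσ) ha) σ
    (hTi σ) (v / t) ?_ μ hres
  have h1 : T σ t = t := tw_fix (T σ : geomPro 2 ℚ F Ω →+* geomPro 2 ℚ F Ω) (hTz σ j0 hj0) w.1
  have h2 : T σ (v / t) = v / t := by rw [map_div₀, hv, h1]
  exact h2

end one

end Pool.Agent.Run7.h369.D3
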