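import Pool.Agent.Run7.h369.D3.Lead
import Pool.Agent.Run7.h369.D3.Loc

/-! # The square roots of the functions `f_w` (statement)

PROOF of `S_ROOT`.  (1) `z j`: the product of a square root in `geomPro` of
`(x - e_j)/(x - e_i)` (`Pool.Agent.Y157.PS.a_rts`) and of a constant (`const_geomPro`).
(2) As in `Pool.Agent.Y968.PC.gred0` (file `Y968/PC/GRED0.lean`; with `hδ` etc.) or
`Y157/PS/GeoB.lean`, `GeoC.lean` the field `geomPro 2 ℚ F Ω` is the covering field
(`Cov 2 κ R M x' B Y'`, `a_cov`, `maxPro_geom`, `fields_eq`, `closure_R`), where `κ = ℚ̄`,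
`R = κ(x)`.  By `Cov.root` it is enough to show that the order of `f_w` is even at every
`W : Place κ M`.  By `z_diff` the product `(z j - z k) * (z j + z k)` is a nonzero constant.  If `W`
is not above `e_i`, then `x - e_i` has order `0` or (at infinity) all `x - e_j` have order `-1`, so
the `z j` have order `≥ 0`, `z j ± z k` have order `0`, and `f_w` has order `0`.  If `W` is above
`e_i`, then `z j` has order `-1` (`Cov.loc'`: `x - e_i` has order 2), one of `z j ± z k` has order
`-1` (the sum of both is `2 z j`, both have order `≥ -1`), and the other one has order `1`; so the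
order of `f_w` is a sum of `w.card` odd numbers. -/

set_option autoImplicit false
set_option linter.all false

namespace Pool.Agent.Run7.h369.D3

open Finset Pool.Agent.Y157.PS

/-- the square roots of the functions `f_w` are in the covering field -/
def S_ROOT : Prop :=
  ∀ (K : Type) [Fintype K] [DecidableEq K] (e : K → ℤ), Function.Injective e →
    Even (Fintype.card K) → 4 ≤ Fintype.card K → ∀ d : ℤ, d ≠ 0 →
    ∀ (F Ω : Type) [Field F] [Field Ω] [Algebra ℚ F] [Algebra F Ω] [Algebra ℚ Ω]
    [IsScalarTower ℚ F Ω] [IsAlgClosed Ω] [Algebra.IsAlgebraic F Ω] (x y : F),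
    Transcendental ℚ x → algebraMap ℚ F (d : ℚ) * y ^ 2 = ∏ i, (x - algebraMap ℚ F (e i : ℚ)) →
    IntermediateField.adjoin ℚ {x, y} = (⊤ : IntermediateField ℚ F) → ∀ i : K,
    (∃ z : K → geomPro 2 ℚ F Ω, ZSys e d i (algebraMap F (geomPro 2 ℚ F Ω) x) z) ∧
    ∀ z : K → geomPro 2 ℚ F Ω, ZSys e d i (algebraMap F (geomPro 2 ℚ F Ω) x) z →
      ∀ w : Finset (K × K), Adm i w → Even w.card → ∃ h : geomPro 2 ℚ F Ω, h ^ 2 = ff z w

end Pool.Agent.Run7.h369.D3
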