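import Pool.Agent.Run7.h369.D3.Att2
import Pool.Agent.Run7.h369.D3.Stm2

/-! # Types, relations and the separation lemmas -/

set_option autoImplicit false
set_option linter.all false

namespace Pool.Agent.Run7.h369.D3

open Finset Pool.Agent.Y157.PS

section maps

variable {K : Type} [Fintype K] [DecidableEq K] {M M' : Type} [Field M] [Field M']

theorem ZSys.map {e : K → ℤ} {d : ℤ} {i : K} {x : M} {z : K → M} (h : ZSys e d i x z)
    (g : M →+* M') : ZSys e d i (g x) (fun j => g (z j)) := by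
  intro j hj
  have h1 := congrArg g (h j hj)
  simp only [map_mul, map_sub, map_pow, map_intCast] at h1
  exact h1

theorem pat_comap [CharZero M] [CharZero M'] (g : M →+* M') (W : ValuationSubring M') (z : K → M) (i j0 : K) :
    pat (W.comap g) z i j0 = pat W (fun j => g (z j)) i j0 := by
  ext j
  rw [mem_pat, mem_pat, Pool.Agent.Y780.PC.non_comap, map_add, map_div₀, map_one]

theorem ff_map (g : M →+* M') (z : K → M) (w : Finset (K × K)) :
    g (ff z w) = ff (fun j => g (z j)) w := by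
  unfold ff
  rw [map_prod]
  exact Finset.prod_congr rfl fun p _ => map_sub g _ _

end maps

section types

variable {K : Type} [Fintype K] [DecidableEq K]

/-- the sign patterns -/
abbrev Typ (i j0 : K) : Type := {L : Finset K // i ∉ L ∧ j0 ∉ L}

/-- the conditions -/
abbrev Rel (i : K) : Type := {w : Finset (K × K) // Adm i w ∧ Even w.card}

/-- the parity -/
def aa (i j0 : K) (w : Rel i) (L : Typ i j0) : Bool := decide (Odd (nn L.1 w.1))

/-- the constant -/
def ca (e : K → ℤ) (i j0 : K) (L : Typ i j0) (w : Rel i) : ℤ := cc e i L.1 w.1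

theorem nn_sum (L : Finset K) (w : Finset (K × K)) :
    nn L w = ∑ p ∈ w, (if Nsep L p then 1 else 0) := by
  unfold nn
  rw [Finset.card_filter]

theorem nn_pair (L : Finset K) (p q : K × K) (hpq : p ≠ q) :
    nn L {p, q} = (if Nsep L p then 1 else 0) + (if Nsep L q then 1 else 0) := by
  rw [nn_sum, Finset.sum_pair hpq]

/-- the parities separate the sign patterns -/
theorem sep (i j0 : K) (h4 : 4 ≤ Fintype.card K) (hj0 : j0 ≠ i) (L L' : Typ i j0) (h : L ≠ L') :
    ∃ w, aa i j0 w L ≠ aa i j0 w L' := by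
  -- a point where they differ
  obtain ⟨a, ha⟩ : ∃ a, ¬ (a ∈ L.1 ↔ a ∈ L'.1) := by
    by_contra hno
    push Not at hno
    exact h (Subtype.ext (Finset.ext hno))
  have hai : a ≠ i := by
    rintro rfl
    exact ha ⟨fun h => absurd h L.2.1, fun h => absurd h L'.2.1⟩
  have haj : a ≠ j0 := by
    rintro rfl
    exact ha ⟨fun h => absurd h L.2.2, fun h => absurd h L'.2.2⟩
  -- a third point
  obtain ⟨b, hb⟩ : ∃ b, b ∉ ({i, j0, a} : Finset K) := by
    by_contra hno
    push Not at hno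
    have h1 : Fintype.card K ≤ ({i, j0, a} : Finset K).card := by
      rw [← Finset.card_univ]
      exact Finset.card_le_card fun b _ => hno b
    have h2 : ({i, j0, a} : Finset K).card ≤ 3 := Finset.card_le_three
    omega
  have hbi : b ≠ i := fun h => hb (by rw [h]; simp)
  have hbj : b ≠ j0 := fun h => hb (by rw [h]; simp)
  have hba : b ≠ a := fun h => hb (by rw [h]; simp)
  have hL := L.2.2
  have hL' := L'.2.2
  by_cases hbb : b ∈ L.1 ↔ b ∈ L'.1
  · -- `(a, j0)` and `(b, j0)`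
    have hne : (a, j0) ≠ (b, j0) := fun h => hba (congrArg Prod.fst h).symm
    refine ⟨⟨{(a, j0), (b, j0)}, ?_, ?_⟩, ?_⟩
    · intro p hp
      rw [Finset.mem_insert, Finset.mem_singleton] at hp
      rcases hp with rfl | rfl
      · exact ⟨haj, hai, hj0⟩
      · exact ⟨hbj, hbi, hj0⟩
    · rw [Finset.card_pair hne]
      exact ⟨1, rfl⟩
    · unfold aa
      rw [nn_pair _ _ _ hne, nn_pair _ _ _ hne]
      unfold Nsep
      simp only
      by_cases h1 : a ∈ L.1 <;> by_cases h2 : a ∈ L'.1 <;> by_cases h3 : b ∈ L.1 <;>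
        by_cases h4 : b ∈ L'.1 <;> simp_all <;> decide
  · -- `(a, j0)` and `(a, b)`
    have hne : (a, j0) ≠ (a, b) := fun h => hbj (congrArg Prod.snd h).symm
    refine ⟨⟨{(a, j0), (a, b)}, ?_, ?_⟩, ?_⟩
    · intro p hp
      rw [Finset.mem_insert, Finset.mem_singleton] at hp
      rcases hp with rfl | rfl
      · exact ⟨haj, hai, hj0⟩
      · exact ⟨Ne.symm hba, hai, hbi⟩
    · rw [Finset.card_pair hne]
      exact ⟨1, rfl⟩
    · unfold aa
      rw [nn_pair _ _ _ hne, nn_pair _ _ _ hne]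
      unfold Nsep
      simp only
      by_cases h1 : a ∈ L.1 <;> by_cases h2 : a ∈ L'.1 <;> by_cases h3 : b ∈ L.1 <;>
        by_cases h4 : b ∈ L'.1 <;> simp_all <;> decide

/-- the factor of a pair, for two sign patterns -/
def pf (e : K → ℤ) (i : K) (D : Finset K) (u v : K) : ℤ :=
  (if u ∈ D then -1 else 1) * (if (u ∈ D ↔ v ∈ D) then 1 else
    (e u - e v) * ((e u - e i) * (e v - e i)))

/-- the condition on 4-cycles -/
def Cyc (e : K → ℤ) : Prop :=
  ∀ (i : K) (D : Finset K), i ∉ D → D.Nonempty → (∃ j, j ≠ i ∧ j ∉ D) →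
    ∃ a b c d : K, a ≠ i ∧ b ≠ i ∧ c ≠ i ∧ d ≠ i ∧ a ≠ b ∧ a ≠ c ∧ a ≠ d ∧ b ≠ c ∧ b ≠ d ∧ c ≠ d ∧
      ¬ IsSquare (pf e i D a b * pf e i D b c * (pf e i D c d * pf e i D d a))

theorem mem_symm (L L' : Finset K) (u : K) : u ∈ symmDiff L L' ↔ ¬ (u ∈ L ↔ u ∈ L') := by
  rw [Finset.mem_symmDiff]
  tauto

theorem qc_mul (e : K → ℤ) (he : Function.Injective e) (i : K) (L L' : Finset K) (u v : K)
    (hu : u ≠ i) (hv : v ≠ i) (huv : u ≠ v) :
    ∃ r : ℤ, r ≠ 0 ∧ qc e i L (u, v) * qc e i L' (u, v) = pf e i (symmDiff L L') u v *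
      (if (u ∈ symmDiff L L' ↔ v ∈ symmDiff L L') then 1 else Gi e i) * r ^ 2 := by
  have hG := Gi_ne e he i
  set E : ℤ := (e u - e v) * ((e i - e u) * (e i - e v)) with hE
  have hE0 : E ≠ 0 := mul_ne_zero (sub_ne_zero.2 (he.ne huv))
    (mul_ne_zero (sub_ne_zero.2 (he.ne hu.symm)) (sub_ne_zero.2 (he.ne hv.symm)))
  have hE' : (e u - e v) * ((e u - e i) * (e v - e i)) = E := by rw [hE]; ring
  refine ⟨if (u ∈ L ↔ v ∈ L) ∧ (u ∈ L' ↔ v ∈ L') then Gi e i * E else 1, ?_, ?_⟩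
  · split_ifs
    · exact mul_ne_zero hG hE0
    · exact one_ne_zero
  · unfold qc pf sg Nsep
    simp only [mem_symm, ← hE, hE']
    by_cases h1 : u ∈ L <;> by_cases h2 : v ∈ L <;> by_cases h3 : u ∈ L' <;>
      by_cases h4 : v ∈ L' <;> simp [h1, h2, h3, h4] <;> ring

theorem cyc_prod {A : Type} [CommMonoid A] (f : K × K → A) (a b c d : K) (hab : a ≠ b)
    (hac : a ≠ c) (had : a ≠ d) (hbc : b ≠ c) (hbd : b ≠ d) (hcd : c ≠ d) :
    ∏ p ∈ ({(a, b), (b, c), (c, d), (d, a)} : Finset (K × K)), f p =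
      f (a, b) * f (b, c) * (f (c, d) * f (d, a)) := by
  rw [Finset.prod_insert (by simp [hab, hac, had]), Finset.prod_insert (by simp [hbc, hbd]),
    Finset.prod_insert (by simp [hcd]), Finset.prod_singleton, mul_assoc]

theorem cyc_even (L : Finset K) (a b c d : K) (hab : a ≠ b)
    (hac : a ≠ c) (had : a ≠ d) (hbc : b ≠ c) (hbd : b ≠ d) (hcd : c ≠ d) :
    ¬ Odd (nn L ({(a, b), (b, c), (c, d), (d, a)} : Finset (K × K))) := by
  rw [nn_sum, Finset.sum_insert (by simp [hab, hac, had]), Finset.sum_insert (by simp [hbc, hbd]),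
    Finset.sum_insert (by simp [hcd]), Finset.sum_singleton]
  unfold Nsep
  simp only
  by_cases h1 : a ∈ L <;> by_cases h2 : b ∈ L <;> by_cases h3 : c ∈ L <;>
    by_cases h4 : d ∈ L <;> simp [h1, h2, h3, h4] <;> decide

theorem square_cancel (A s : ℤ) (hs : s ≠ 0) (h : IsSquare (A * s ^ 2)) : IsSquare A := by
  obtain ⟨t, ht⟩ := h
  have h1 : s ^ 2 ∣ t ^ 2 := ⟨A, by rw [sq t, ← ht]; ring⟩
  obtain ⟨r, rfl⟩ := (Int.pow_dvd_pow_iff two_ne_zero).1 h1
  refine ⟨r, ?_⟩
  apply mul_right_cancel₀ (pow_ne_zero 2 hs)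
  rw [ht]
  ring

/-- the condition of the counting theorem -/
theorem cyc_ns (e : K → ℤ) (he : Function.Injective e) (hcyc : Cyc e) (i j0 : K) (hj0 : j0 ≠ i)
    (L L' : Typ i j0) (h : L ≠ L') :
    ∃ w : Rel i, (∀ L'', aa i j0 w L'' = false) ∧
      ¬ IsSquare (ca e i j0 L w * ca e i j0 L' w) := by
  set D := symmDiff L.1 L'.1 with hD
  obtain ⟨a, b, c, d, ha, hb, hc, hd, hab, hac, had, hbc, hbd, hcd, hns⟩ := hcyc i D (by
      rw [hD, mem_symm]
      have h1 := L.2.1
      have h2 := L'.2.1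
      tauto) (by
      by_contra hno
      apply h
      apply Subtype.ext
      rw [Finset.not_nonempty_iff_eq_empty] at hno
      rw [← symmDiff_eq_bot]
      exact hno) ⟨j0, hj0, by
      rw [hD, mem_symm]
      have h1 := L.2.2
      have h2 := L'.2.2
      tauto⟩
  refine ⟨⟨{(a, b), (b, c), (c, d), (d, a)}, ?_, ?_⟩, ?_, ?_⟩
  · intro p hp
    simp only [Finset.mem_insert, Finset.mem_singleton] at hp
    rcases hp with rfl | rfl | rfl | rfl
    · exact ⟨hab, ha, hb⟩
    · exact ⟨hbc, hb, hc⟩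
    · exact ⟨hcd, hc, hd⟩
    · exact ⟨had.symm, hd, ha⟩
  · have h1 : ({(a, b), (b, c), (c, d), (d, a)} : Finset (K × K)).card = 4 := by
      rw [Finset.card_eq_sum_ones, Finset.sum_insert (by simp [hab, hac, had]),
        Finset.sum_insert (by simp [hbc, hbd]), Finset.sum_insert (by simp [hcd]),
        Finset.sum_singleton]
      rfl
    rw [h1]
    exact ⟨2, rfl⟩
  · intro L''
    unfold aa
    rw [decide_eq_false_iff_not]
    exact cyc_even L''.1 a b c d hab hac had hbc hbd hcd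
  · unfold ca cc
    simp only
    rw [← Finset.prod_mul_distrib, cyc_prod _ a b c d hab hac had hbc hbd hcd]
    obtain ⟨r1, hr1, e1⟩ := qc_mul e he i L.1 L'.1 a b ha hb hab
    obtain ⟨r2, hr2, e2⟩ := qc_mul e he i L.1 L'.1 b c hb hc hbc
    obtain ⟨r3, hr3, e3⟩ := qc_mul e he i L.1 L'.1 c d hc hd hcd
    obtain ⟨r4, hr4, e4⟩ := qc_mul e he i L.1 L'.1 d a hd ha had.symm
    rw [e1, e2, e3, e4, ← hD]
    have hG := Gi_ne e he i
    obtain ⟨g, hg, hg2⟩ : ∃ g : ℤ, g ≠ 0 ∧ (if (a ∈ D ↔ b ∈ D) then 1 else Gi e i) *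
        (if (b ∈ D ↔ c ∈ D) then 1 else Gi e i) * ((if (c ∈ D ↔ d ∈ D) then 1 else Gi e i) *
        (if (d ∈ D ↔ a ∈ D) then 1 else Gi e i)) = g ^ 2 := by
      by_cases h1 : a ∈ D <;> by_cases h2 : b ∈ D <;> by_cases h3 : c ∈ D <;>
        by_cases h4 : d ∈ D <;> simp only [h1, h2, h3, h4, iff_true, iff_false, not_true,
          not_false_eq_true, if_true, if_false, iff_self, one_mul, mul_one] <;>
        first
        | (refine ⟨1, one_ne_zero, ?_⟩; ring1)
        | (refine ⟨Gi e i, hG, ?_⟩; ring1)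
        | (refine ⟨Gi e i ^ 2, pow_ne_zero 2 hG, ?_⟩; ring1)
    intro hsq
    apply hns
    refine square_cancel _ (g * (r1 * r2 * (r3 * r4)))
      (mul_ne_zero hg (mul_ne_zero (mul_ne_zero hr1 hr2) (mul_ne_zero hr3 hr4))) ?_
    convert hsq using 1
    rw [mul_pow, ← hg2]
    ring

end types

end Pool.Agent.Run7.h369.D3
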