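import Pool.Agent.Run7.h369.D3.PerM

/-! # The second level is contained in the third level -/

set_option autoImplicit false
set_option linter.all false

open Polynomial

namespace Pool.Agent.Run7.h369.D3

open Finset Pool.Agent.Y157.PS Pool.Agent.Y157.PC

/-- the second level -/
def Lvl₂ {k F N : Type} [Field k] [Field F] [Field N] [Algebra k F] {K : Type} (j : F →+* N)
    (e : K → k) (x : F) : Subfield N :=
  Subfield.closure (Set.range j ∪ {z | AlgOver' (j.comp (algebraMap k F)) z} ∪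
    {z | ∃ i i', z ^ 2 * j (x - algebraMap k F (e i')) = j (x - algebraMap k F (e i))})

section mem

variable {κ N : Type} [Field κ] [IsAlgClosed κ] [Field N] (ι : κ →+* N) (S : Subfield N)
  (hS : ∀ c, ι c ∈ S)

include hS in
theorem mem_of_sq (u w : N) (c : κ) (hu : u ∈ S) (hw : w ^ 2 = ι c * u ^ 2) : w ∈ S := by
  by_cases h0 : u = 0
  · rw [h0, zero_pow (by norm_num), mul_zero] at hw
    rw [pow_eq_zero_iff (by norm_num)] at hw
    rw [hw]
    exact S.zero_mem
  · have h1 : (w / u) ^ 2 = ι c := by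
      rw [div_pow, hw, mul_div_cancel_right₀ _ (pow_ne_zero _ h0)]
    obtain ⟨a, ha⟩ := Pool.Agent.W620.SC.root_mem ι (n := 2) (by norm_num) h1
    have h2 : w = ι a * u := by rw [ha, div_mul_cancel₀ _ h0]
    rw [h2]
    exact S.mul_mem (hS a) hu

variable [CharZero N] {K : Type} [Fintype K] [DecidableEq K] {e : K → ℤ}
  (he : Function.Injective e) {d : ℤ} (hd : d ≠ 0) {i : K} {x : N} (hx : ∀ n : ℤ, x ≠ (n : N))
  {z : K → N} (hz : ZSys e d i x z) (hzS : ∀ l, l ≠ i → z l ∈ S)

include hS he hd hx hz hzS in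
theorem ratio_mem_S (a b : K) (w : N) (hw : w ^ 2 * (x - (e b : N)) = x - (e a : N)) : w ∈ S := by
  haveI hch : CharZero κ := by
    refine ⟨fun a b hab => ?_⟩
    have h1 := congrArg ι hab
    rw [map_natCast, map_natCast] at h1
    exact_mod_cast h1
  have hd' : (d : N) ≠ 0 := by exact_mod_cast hd
  have hG : (Gi e i : N) ≠ 0 := by exact_mod_cast Gi_ne e he i
  have hxe : ∀ l, x - (e l : N) ≠ 0 := fun l => sub_ne_zero.2 (hx _)
  have hw' : w ^ 2 = (x - (e a : N)) / (x - (e b : N)) := by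
    rw [eq_div_iff (hxe b), hw]
  by_cases hab : a = b
  · subst hab
    refine mem_of_sq ι S hS 1 w 1 S.one_mem ?_
    rw [hw', div_self (hxe a), map_one, one_pow, mul_one]
  by_cases ha : a = i
  · subst ha
    have hb : b ≠ a := Ne.symm hab
    have hzb := z_ne hx hz hb
    have hib := sub_e_ne (M := N) he (Ne.symm hb)
    refine mem_of_sq ι S hS (z b)⁻¹ w (((d : κ) * (Gi e a : κ) * ((e a : κ) - (e b : κ)))⁻¹)
      (S.inv_mem (hzS b hb)) ?_
    have h1 := hz b hb
    simp only [map_inv₀, map_mul, map_sub, map_intCast]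
    rw [hw', ← h1]
    have := hxe a
    field_simp
  by_cases hb : b = i
  · subst hb
    have hza := z_ne hx hz ha
    have hia := sub_e_ne (M := N) he (Ne.symm ha)
    refine mem_of_sq ι S hS (z a) w ((d : κ) * (Gi e b : κ) * ((e b : κ) - (e a : κ)))
      (hzS a ha) ?_
    have h1 := hz a ha
    simp only [map_mul, map_sub, map_intCast]
    rw [hw', ← h1]
    have := hxe b
    field_simp
  · have hza := z_ne hx hz ha
    have hzb := z_ne hx hz hb
    have hia := sub_e_ne (M := N) he (Ne.symm ha)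
    have hib := sub_e_ne (M := N) he (Ne.symm hb)
    refine mem_of_sq ι S hS (z a / z b) w (((e i : κ) - (e a : κ)) / ((e i : κ) - (e b : κ)))
      (S.div_mem (hzS a ha) (hzS b hb)) ?_
    have h1 := hz a ha
    have h2 := hz b hb
    simp only [map_div₀, map_sub, map_intCast]
    rw [hw', ← h1, ← h2]
    have := hxe i
    field_simp

end mem

section lvl

variable {K : Type} [Fintype K] [DecidableEq K] (e : K → ℤ) (he : Function.Injective e)
  (hev : Even (Fintype.card K)) (h4 : 4 ≤ Fintype.card K) (d : ℤ) (hd : Squarefree d)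
  {F Ω : Type} [Field F] [Field Ω] [Algebra ℚ F] [Algebra F Ω] [Algebra ℚ Ω]
  [IsScalarTower ℚ F Ω] [IsAlgClosed Ω] [Algebra.IsAlgebraic F Ω] (x y : F)
  (hx : Transcendental ℚ x)
  (hxy : algebraMap ℚ F (d : ℚ) * y ^ 2 = ∏ i, (x - algebraMap ℚ F (e i : ℚ)))
  (hF : IntermediateField.adjoin ℚ {x, y} = (⊤ : IntermediateField ℚ F))
  (N : IntermediateField F Ω)

include he hev h4 hd hx hxy hF in
theorem lvl_le (hROOT : S_ROOT) (hMN : geomPro 2 ℚ F Ω ≤ N) (i : K) :
    Lvl₂ (algebraMap F N) (fun j => (e j : ℚ)) x ≤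
      Lvl₃ (algebraMap F N) (fun j => (e j : ℚ)) x i := by
  haveI : CharZero F := algebraRat.charZero F
  haveI : CharZero N := charZero_of_injective_algebraMap (algebraMap F N).injective
  haveI : CharZero Ω := charZero_of_injective_algebraMap (algebraMap F Ω).injective
  haveI hac : IsAlgClosure ℚ (algebraicClosure ℚ Ω) := Pool.Agent.Y968.PC.algClosQ Ω
  haveI hkb : IsAlgClosed (algebraicClosure ℚ Ω) := hac.1
  obtain ⟨⟨z0, hz0⟩, -⟩ := hROOT K e he hev h4 d hd.ne_zero F Ω x y hx hxy hF i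
  let inc : geomPro 2 ℚ F Ω →+* N :=
    (algebraMap (geomPro 2 ℚ F Ω) Ω).codRestrict N.toSubfield (fun a => hMN a.2)
  have hincx : inc (algebraMap F (geomPro 2 ℚ F Ω) x) = algebraMap F N x := Subtype.ext rfl
  obtain ⟨z, hz⟩ : ∃ z : K → N, ZSys e d i (algebraMap F N x) z := by
    have := hz0.map inc
    rw [hincx] at this
    exact ⟨_, this⟩
  have hxN := x_ne_int x hx (algebraMap F N)
  let ι : algebraicClosure ℚ Ω →+* N :=
    (algebraMap (algebraicClosure ℚ Ω) Ω).codRestrict N.toSubfield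
      (fun c => hMN (const_geomPro 2 ℚ c))
  set S := Lvl₃ (algebraMap F N) (fun j => (e j : ℚ)) x i with hS
  have hιS : ∀ c, ι c ∈ S := by
    intro c
    refine Subfield.subset_closure (Or.inl (Or.inl (Or.inr ?_)))
    obtain ⟨p, hp, hpc⟩ := c.2
    refine ⟨p, hp.ne_zero, ?_⟩
    apply (algebraMap N Ω).injective
    rw [hom_eval₂, map_zero]
    have h6 : (algebraMap N Ω).comp ((algebraMap F N).comp (algebraMap ℚ F)) =
        algebraMap ℚ Ω := by
      ext a
      exact (IsScalarTower.algebraMap_apply ℚ F Ω a).symm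
    have h7 : algebraMap N Ω (ι c) = (c : Ω) := rfl
    rw [h6, h7]
    exact hpc
  have hzS : ∀ l, l ≠ i → z l ∈ S := by
    intro l hl
    obtain ⟨c, hc⟩ := IsAlgClosed.exists_pow_nat_eq
      (((d * Gi e i : ℤ)) : algebraicClosure ℚ Ω) (n := 2) (by norm_num)
    have hc0 : ι c ≠ 0 := by
      rw [Ne, map_eq_zero]
      rintro rfl
      rw [zero_pow (by norm_num)] at hc
      have h1 : d * Gi e i ≠ 0 := mul_ne_zero hd.ne_zero (Gi_ne e he i)
      exact h1 (by exact_mod_cast hc.symm)
    have h1 : ι c * z l ∈ S := by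
      refine Subfield.subset_closure (Or.inl (Or.inr ⟨l, hl, ?_⟩))
      change (ι c * z l) ^ 2 * algebraMap F N ((x - algebraMap ℚ F (e i : ℚ)) *
        algebraMap ℚ F ((e i : ℚ) - (e l : ℚ))) = algebraMap F N (x - algebraMap ℚ F (e l : ℚ))
      simp only [map_mul, map_sub, map_intCast]
      rw [mul_pow, ← map_pow, hc, map_intCast, ← hz l hl]
      push_cast
      ring
    have h2 := S.mul_mem (S.inv_mem (hιS c)) h1
    rwa [inv_mul_cancel_left₀ hc0] at h2
  unfold Lvl₂
  rw [Subfield.closure_le]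
  rintro a ((ha | ha) | ha)
  · exact Subfield.subset_closure (Or.inl (Or.inl (Or.inl ha)))
  · exact Subfield.subset_closure (Or.inl (Or.inl (Or.inr ha)))
  · obtain ⟨l, l', h⟩ := ha
    refine ratio_mem_S ι S hιS he hd.ne_zero hxN hz hzS l l' a ?_
    simp only [map_sub, map_intCast] at h
    exact h

end lvl

end Pool.Agent.Run7.h369.D3
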