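import Mathlib

/-! # Normalised square roots of the functions `(x - e_j)/(x - e_i)` -/

set_option autoImplicit false
set_option linter.all false

namespace Pool.Agent.Run7.h369.D3

open Finset

section

variable {K : Type} [Fintype K] [DecidableEq K]

/-- the product of the differences -/
def Gi (e : K → ℤ) (i : K) : ℤ := ∏ l ∈ univ.erase i, (e i - e l)

theorem Gi_ne (e : K → ℤ) (he : Function.Injective e) (i : K) : Gi e i ≠ 0 := by
  unfold Gi
  refine Finset.prod_ne_zero_iff.2 fun l hl => ?_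
  exact sub_ne_zero.2 (he.ne (Finset.ne_of_mem_erase hl).symm)

variable {M : Type} [Field M]

/-- `z j` are normalised square roots of the functions `(x - e_j)/(x - e_i)` -/
def ZSys (e : K → ℤ) (d : ℤ) (i : K) (x : M) (z : K → M) : Prop :=
  ∀ j, j ≠ i → (d : M) * (Gi e i : M) * z j ^ 2 * ((x - (e i : M)) * ((e i : M) - (e j : M))) =
    x - (e j : M)

variable [CharZero M] {e : K → ℤ} (he : Function.Injective e) {d : ℤ} (hd : d ≠ 0) {i : K}
  {x y : M} (hx : ∀ n : ℤ, x ≠ (n : M)) {z : K → M} (hz : ZSys e d i x z)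
  (hxy : (d : M) * y ^ 2 = ∏ l, (x - (e l : M)))

include he in
theorem sub_e_ne {j k : K} (h : j ≠ k) : ((e j : M) - (e k : M)) ≠ 0 := by
  rw [sub_ne_zero]
  intro h1
  exact h (he (by exact_mod_cast h1))

include hx hz in
theorem z_ne {j : K} (hj : j ≠ i) : z j ≠ 0 := by
  intro h
  have h1 := hz j hj
  rw [h] at h1
  apply hx (e j)
  rw [zero_pow (by norm_num), mul_zero, zero_mul] at h1
  exact (sub_eq_zero.1 h1.symm)

include he hd hx hz in
theorem z_sq {j : K} (hj : j ≠ i) : z j ^ 2 =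
    (x - (e j : M)) / ((d : M) * (Gi e i : M) * ((x - (e i : M)) * ((e i : M) - (e j : M)))) := by
  have hd' : (d : M) ≠ 0 := by exact_mod_cast hd
  have hG : (Gi e i : M) ≠ 0 := by exact_mod_cast Gi_ne e he i
  have hxi : x - (e i : M) ≠ 0 := sub_ne_zero.2 (hx _)
  have hij := sub_e_ne (M := M) he (Ne.symm hj)
  rw [eq_div_iff (mul_ne_zero (mul_ne_zero hd' hG) (mul_ne_zero hxi hij)), ← hz j hj]
  ring

include he hd hx hz in
/-- the difference -/
theorem z_diff {j k : K} (hj : j ≠ i) (hk : k ≠ i) :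
    (z j - z k) * (z j + z k) * ((d : M) * (Gi e i : M) * (((e i : M) - (e j : M)) *
      ((e i : M) - (e k : M)))) = (e j : M) - (e k : M) := by
  have hxi : x - (e i : M) ≠ 0 := sub_ne_zero.2 (hx _)
  have h1 := hz j hj
  have h2 := hz k hk
  have h3 : (x - (e i : M)) * ((z j - z k) * (z j + z k) * ((d : M) * (Gi e i : M) *
      (((e i : M) - (e j : M)) * ((e i : M) - (e k : M))))) =
      (x - (e i : M)) * ((e j : M) - (e k : M)) := by
    linear_combination ((e i : M) - (e k : M)) * h1 - ((e i : M) - (e j : M)) * h2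
  exact mul_left_cancel₀ hxi h3

include he hd hx hz in
theorem z_sub_ne {j k : K} (hj : j ≠ i) (hk : k ≠ i) (hjk : j ≠ k) : z j - z k ≠ 0 := by
  intro h
  have h1 := z_diff he hd hx hz hj hk
  rw [h, zero_mul, zero_mul] at h1
  exact sub_e_ne (M := M) he hjk h1.symm

include he hd hx hz in
theorem z_add_ne {j k : K} (hj : j ≠ i) (hk : k ≠ i) (hjk : j ≠ k) : z j + z k ≠ 0 := by
  intro h
  have h1 := z_diff he hd hx hz hj hk
  rw [h, mul_zero, zero_mul] at h1
  exact sub_e_ne (M := M) he hjk h1.symm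

include he hd hx hz hxy in
/-- the product of the `z j` -/
theorem z_prod (m : ℕ) (hm : Fintype.card K = 2 * m + 2) :
    ((∏ j ∈ univ.erase i, z j) * (((d : M) * (Gi e i : M) * (x - (e i : M))) ^ m *
      ((Gi e i : M) * (x - (e i : M))))) ^ 2 = y ^ 2 := by
  have hd' : (d : M) ≠ 0 := by exact_mod_cast hd
  have h1 : (∏ j ∈ univ.erase i, z j) ^ 2 * (((d : M) * (Gi e i : M) * (x - (e i : M))) ^
      (2 * m + 1) * (Gi e i : M)) = ∏ j ∈ univ.erase i, (x - (e j : M)) := by
    have h2 : (Gi e i : M) = ∏ j ∈ univ.erase i, ((e i : M) - (e j : M)) := by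
      unfold Gi
      push_cast
      rfl
    have h3 : ((d : M) * (Gi e i : M) * (x - (e i : M))) ^ (2 * m + 1) =
        ∏ j ∈ univ.erase i, ((d : M) * (Gi e i : M) * (x - (e i : M))) := by
      rw [Finset.prod_const, Finset.card_erase_of_mem (mem_univ i), card_univ, hm]
      congr 1
    rw [h3]
    conv_lhs => rw [← Finset.prod_pow]
    have h4 : (∏ j ∈ univ.erase i, z j ^ 2) * ((∏ j ∈ univ.erase i, ((d : M) * (Gi e i : M) *
        (x - (e i : M)))) * (Gi e i : M)) = (∏ j ∈ univ.erase i, z j ^ 2) *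
        ((∏ j ∈ univ.erase i, ((d : M) * (Gi e i : M) *
        (x - (e i : M)))) * ∏ j ∈ univ.erase i, ((e i : M) - (e j : M))) := by
      rw [h2]
    rw [h4, ← Finset.prod_mul_distrib, ← Finset.prod_mul_distrib]
    refine Finset.prod_congr rfl fun j hj => ?_
    rw [← hz j (Finset.ne_of_mem_erase hj)]
    ring
  have h2 : (x - (e i : M)) * ∏ j ∈ univ.erase i, (x - (e j : M)) = (d : M) * y ^ 2 := by
    rw [hxy, Finset.mul_prod_erase univ (fun j => x - (e j : M)) (mem_univ i)]
  apply mul_left_cancel₀ hd'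
  rw [← h2, ← h1]
  ring

include he hd hx hz hxy in
theorem z_prod_fix (hev : Even (Fintype.card K)) (g : M →+* M) (hgx : g x = x) (hgy : g y = y) :
    g (∏ j ∈ univ.erase i, z j) = ∏ j ∈ univ.erase i, z j := by
  have hd' : (d : M) ≠ 0 := by exact_mod_cast hd
  have hG : (Gi e i : M) ≠ 0 := by exact_mod_cast Gi_ne e he i
  have hxi : x - (e i : M) ≠ 0 := sub_ne_zero.2 (hx _)
  obtain ⟨m, hm⟩ : ∃ m, Fintype.card K = 2 * m + 2 := by
    obtain ⟨r, hr⟩ := hev
    have hpos : 0 < Fintype.card K := Fintype.card_pos_iff.2 ⟨i⟩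
    exact ⟨r - 1, by omega⟩
  set c : M := ((d : M) * (Gi e i : M) * (x - (e i : M))) ^ m *
      ((Gi e i : M) * (x - (e i : M))) with hc
  have hc0 : c ≠ 0 := mul_ne_zero (pow_ne_zero _ (mul_ne_zero (mul_ne_zero hd' hG) hxi))
    (mul_ne_zero hG hxi)
  have hgc : g c = c := by
    rw [hc]
    simp only [map_mul, map_pow, map_sub, map_intCast, hgx]
  have h1 := z_prod he hd hx hz hxy m hm
  rw [← hc] at h1
  have h2 : g ((∏ j ∈ univ.erase i, z j) * c) = (∏ j ∈ univ.erase i, z j) * c := by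
    rcases sq_eq_sq_iff_eq_or_eq_neg.1 h1 with h | h
    · rw [h, hgy]
    · rw [h, map_neg, hgy]
  rw [map_mul, hgc] at h2
  exact mul_right_cancel₀ hc0 h2

include he hd hx hz in
theorem z_sq_fix (g : M →+* M) (hgx : g x = x) {j : K} (hj : j ≠ i) : g (z j) ^ 2 = z j ^ 2 := by
  rw [← map_pow, z_sq he hd hx hz hj]
  simp only [map_div₀, map_mul, map_sub, map_intCast, hgx]

include he hd hx hz hxy in
/-- a homomorphism which fixes the ratios fixes the `z j` -/
theorem fix_of_ratio (hev : Even (Fintype.card K)) (g : M →+* M) (hgx : g x = x) (hgy : g y = y)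
    (h : ∀ j k, j ≠ i → k ≠ i → g (z j / z k) = z j / z k) {j : K} (hj : j ≠ i) :
    g (z j) = z j := by
  have hzj := z_ne hx hz hj
  set χ : M := g (z j) / z j with hχ
  have h1 : ∀ k, k ≠ i → g (z k) = χ * z k := by
    intro k hk
    have h2 := h k j hk hj
    rw [map_div₀, div_eq_div_iff ((_root_.map_ne_zero g).2 hzj) hzj] at h2
    rw [hχ, div_mul_eq_mul_div, eq_div_iff hzj, h2]
    ring
  have h2 : χ ^ 2 = 1 := by
    rw [hχ, div_pow, z_sq_fix he hd hx hz g hgx hj, div_self (pow_ne_zero _ hzj)]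
  have h3 := z_prod_fix he hd hx hz hxy hev g hgx hgy
  have h4 : (∏ k ∈ univ.erase i, z k) ≠ 0 :=
    Finset.prod_ne_zero_iff.2 fun k hk => z_ne hx hz (Finset.ne_of_mem_erase hk)
  rw [map_prod, Finset.prod_congr rfl (fun k hk => h1 k (Finset.ne_of_mem_erase hk)),
    Finset.prod_mul_distrib, Finset.prod_const, Finset.card_erase_of_mem (mem_univ i),
    card_univ] at h3
  have h5 : χ ^ (Fintype.card K - 1) = 1 := by
    have h6 : χ ^ (Fintype.card K - 1) * ∏ k ∈ univ.erase i, z k = 1 * ∏ k ∈ univ.erase i, z k := by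
      rw [h3, one_mul]
    exact mul_right_cancel₀ h4 h6
  have h6 : χ = 1 := by
    obtain ⟨r, hr⟩ := hev
    have hpos : 0 < Fintype.card K := Fintype.card_pos_iff.2 ⟨i⟩
    have h7 : Fintype.card K - 1 = 2 * (r - 1) + 1 := by omega
    rw [h7, pow_succ, pow_mul, h2, one_pow, one_mul] at h5
    exact h5
  rw [h1 j hj, h6, one_mul]

include he hd hx hz in
/-- the ratios and the square roots `γ` -/
theorem ratio_of_gam (g : M →+* M) (hgx : g x = x) {j k : K} (hj : j ≠ i) (hk : k ≠ i) (γ : M)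
    (hγ : g γ = γ) (hγ2 : γ ^ 2 = (x - (e j : M)) * (x - (e k : M)) *
      (((e i : M) - (e j : M)) * ((e i : M) - (e k : M)))) : g (z j / z k) = z j / z k := by
  have hd' : (d : M) ≠ 0 := by exact_mod_cast hd
  have hG : (Gi e i : M) ≠ 0 := by exact_mod_cast Gi_ne e he i
  have hxi : x - (e i : M) ≠ 0 := sub_ne_zero.2 (hx _)
  have hij := sub_e_ne (M := M) he (Ne.symm hj)
  have hik := sub_e_ne (M := M) he (Ne.symm hk)
  set c : M := (d : M) * (Gi e i : M) * (x - (e i : M)) * (((e i : M) - (e j : M)) *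
    ((e i : M) - (e k : M))) with hc
  have hc0 : c ≠ 0 := mul_ne_zero (mul_ne_zero (mul_ne_zero hd' hG) hxi) (mul_ne_zero hij hik)
  have hgc : g c = c := by
    rw [hc]
    simp only [map_mul, map_sub, map_intCast, hgx]
  have h1 : (z j * z k * c) ^ 2 = γ ^ 2 := by
    rw [hγ2, ← hz j hj, ← hz k hk, hc]
    ring
  have h2 : g (z j * z k * c) = z j * z k * c := by
    rcases sq_eq_sq_iff_eq_or_eq_neg.1 h1 with h | h
    · rw [h, hγ]
    · rw [h, map_neg, hγ]
  rw [map_mul, hgc] at h2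
  have h3 := mul_right_cancel₀ hc0 h2
  have h4 : z j / z k = z j * z k / z k ^ 2 := by
    have := z_ne hx hz hk
    field_simp
  rw [h4, map_div₀, h3, map_pow, z_sq_fix he hd hx hz g hgx hk]

end

end Pool.Agent.Run7.h369.D3
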